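import Pool.Agent.U565.HK.Fin

set_option autoImplicit false

open MeasureTheory Topology Filter Set Metric Complex
open scoped ComplexConjugate Real ENNReal NNReal

namespace Pool.Agent.U565.HKS

noncomputable section

variable {n : ℕ}

/-- Open subsets of `ℂⁿ`. -/
abbrev Op (n : ℕ) : Type := TopologicalSpace.Opens (Fin n → ℂ)

/-- Lebesgue measure on the open set `Ω`. -/
def leb (Ω : Op n) : Measure (Fin n → ℂ) := volume.restrict (Ω : Set (Fin n → ℂ))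

/-- The Hilbert space `L²(Ω)`. -/
def L2 (Ω : Op n) : Type := Lp ℂ 2 (leb Ω)

/-- The norm of `L²(Ω)`. -/
instance instL2a (Ω : Op n) : NormedAddCommGroup (L2 Ω) :=
  Lp.instNormedAddCommGroup (E := ℂ) (p := 2) (μ := leb Ω)

/-- The inner product of `L²(Ω)`. -/
instance instL2b (Ω : Op n) : InnerProductSpace ℂ (L2 Ω) :=
  L2.innerProductSpace (𝕜 := ℂ) (E := ℂ) (μ := leb Ω)

/-- Square integrability on `Ω`. -/
def Sq (Ω : Op n) (ψ : (Fin n → ℂ) → ℂ) : Prop := MemLp ψ 2 (leb Ω)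

/-- The function (defined almost everywhere) underlying an element of `L²(Ω)`. -/
def fn {Ω : Op n} (u : L2 Ω) : (Fin n → ℂ) → ℂ := AEEqFun.cast (Subtype.val u)

/-- The class in `L²(Ω)` of a square integrable function. -/
def cls {Ω : Op n} (ψ : (Fin n → ℂ) → ℂ) (h : Sq Ω ψ) : L2 Ω := MemLp.toLp ψ h

/-- `u ∈ L²(Ω)` is represented by a holomorphic function on `Ω`. -/
def IsHolo {Ω : Op n} (u : L2 Ω) : Prop :=
  ∃ g : (Fin n → ℂ) → ℂ, DifferentiableOn ℂ g (Ω : Set (Fin n → ℂ)) ∧ ∀ᵐ z ∂(leb Ω), fn u z = g z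

theorem holo_add {Ω : Op n} {u v : L2 Ω} (hu : IsHolo u) (hv : IsHolo v) : IsHolo (u + v) :=
  HK.IsHolo.add (Ω := Ω) hu hv

theorem holo_zero (Ω : Op n) : IsHolo (0 : L2 Ω) := HK.IsHolo.zero Ω

theorem holo_smul {Ω : Op n} (c : ℂ) {u : L2 Ω} (hu : IsHolo u) : IsHolo (c • u) :=
  HK.IsHolo.smul (Ω := Ω) c hu

/-- The Bergman space `A²(Ω)` as a subspace of `L²(Ω)`. -/
def bergman (Ω : Op n) : Submodule ℂ (L2 Ω) where
  carrier := {u | IsHolo u}
  add_mem' := holo_add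
  zero_mem' := holo_zero Ω
  smul_mem' := fun c _ hu => holo_smul c hu

/-- The Bergman space `A²(Ω)` as a normed space. -/
def A2 (Ω : Op n) : Type := ↥(bergman Ω)

/-- The norm of `A²(Ω)` (that of `L²(Ω)`). -/
instance instA2a (Ω : Op n) : NormedAddCommGroup (A2 Ω) :=
  Submodule.normedAddCommGroup (bergman Ω)

/-- The inner product of `A²(Ω)` (that of `L²(Ω)`). -/
instance instA2b (Ω : Op n) : InnerProductSpace ℂ (A2 Ω) :=
  Submodule.innerProductSpace (bergman Ω)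

theorem hasProj (Ω : Op n) : (bergman Ω).HasOrthogonalProjection :=
  inferInstanceAs (HK.bergman Ω).HasOrthogonalProjection

/-- The Bergman projection: the orthogonal projection of `L²(Ω)` onto `A²(Ω)`. -/
def proj {Ω : Op n} (u : L2 Ω) : L2 Ω :=
  @Submodule.starProjection ℂ (L2 Ω) _ _ _ (bergman Ω) (hasProj Ω) u

/-- `φ g`, for `g ∈ A²(Ω)`. -/
def times {Ω : Op n} (φ : (Fin n → ℂ) → ℂ) (g : A2 Ω) : (Fin n → ℂ) → ℂ :=
  fun z => φ z * fn (Subtype.val g) z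

/-- `g ∈ A²(Ω)` belongs to the domain of the Hankel operator `H_φ` iff `φ g ∈ L²(Ω)`. -/
def InDom {Ω : Op n} (φ : (Fin n → ℂ) → ℂ) (g : A2 Ω) : Prop := Sq Ω (times φ g)

/-- The Hankel operator `H_φ g = (I - P)(φ g)`. -/
def hankel {Ω : Op n} (φ : (Fin n → ℂ) → ℂ) (g : A2 Ω) (h : InDom φ g) : L2 Ω :=
  cls (times φ g) h - proj (cls (times φ g) h)

/-- `T : A²(Ω) → L²(Ω)` is Hilbert-Schmidt: `∑ ‖T e_k‖² < ∞` for some orthonormal (Hilbert) basis
of `A²(Ω)`. -/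
def IsHS {Ω : Op n} (T : A2 Ω →L[ℂ] L2 Ω) : Prop :=
  ∃ (ι : Type) (b : HilbertBasis ι ℂ (A2 Ω)), Summable fun i => ‖T (b i)‖ ^ 2

/-- `H_φ` is Hilbert-Schmidt: it is densely defined, and extends to a bounded operator
`T : A²(Ω) → L²(Ω)` which is Hilbert-Schmidt. -/
def IsHilbertSchmidtHankel (Ω : Op n) (φ : (Fin n → ℂ) → ℂ) : Prop :=
  Dense {g : A2 Ω | InDom φ g} ∧
    ∃ T : A2 Ω →L[ℂ] L2 Ω, (∀ (g : A2 Ω) (h : InDom φ g), T g = hankel φ g h) ∧ IsHS T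

/-- A domain: nonempty, open and connected. -/
def IsDomain' (Ω : Op n) : Prop := IsConnected (Ω : Set (Fin n → ℂ))

end

end Pool.Agent.U565.HKS
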