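import Mathlib

set_option autoImplicit false

open MeasureTheory Topology Filter Set Metric Complex
open scoped ComplexConjugate Real

namespace Pool.Agent.U565.HK

noncomputable section

/-- Normalised Haar measure on the unit circle. -/
local instance : MeasureSpace UnitAddCircle := ⟨AddCircle.haarAddCircle⟩

local instance : Measure.IsAddHaarMeasure (volume : Measure UnitAddCircle) :=
  inferInstanceAs (Measure.IsAddHaarMeasure AddCircle.haarAddCircle)

local instance : IsProbabilityMeasure (volume : Measure UnitAddCircle) :=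
  inferInstanceAs (IsProbabilityMeasure AddCircle.haarAddCircle)

variable {n : ℕ}

/-- `Ω ⊆ ℂⁿ` is Reinhardt: it is invariant under independent rotations of the coordinates. -/
def IsReinhardt (Ω : Set (Fin n → ℂ)) : Prop :=
  ∀ z ∈ Ω, ∀ θ : Fin n → ℝ, (fun j => Complex.exp (Complex.I * (θ j : ℂ)) * z j) ∈ Ω

/-- The action of the torus. -/
def rot (t : UnitAddTorus (Fin n)) (z : Fin n → ℂ) : Fin n → ℂ := fun j => fourier 1 (t j) * z j

/-- Laurent monomials. -/
def mono (α : Fin n → ℤ) (z : Fin n → ℂ) : ℂ := ∏ j, (z j) ^ (α j)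

lemma fourier_one_coe (x : ℝ) : (fourier 1 (x : UnitAddCircle) : ℂ) = Complex.exp (2 * π * I * x) := by
  rw [fourier_coe_apply]
  congr 1
  push_cast
  ring

lemma norm_fourier_one (t : UnitAddCircle) : ‖(fourier 1 t : ℂ)‖ = 1 := by
  rw [fourier_apply]; exact Circle.norm_coe _

lemma norm_rot (t : UnitAddTorus (Fin n)) (z : Fin n → ℂ) (j : Fin n) : ‖rot t z j‖ = ‖z j‖ := by
  rw [rot, norm_mul, norm_fourier_one, one_mul]

lemma IsReinhardt.rot_mem {Ω : Set (Fin n → ℂ)} (h : IsReinhardt Ω) {z : Fin n → ℂ} (hz : z ∈ Ω)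
    (t : UnitAddTorus (Fin n)) : rot t z ∈ Ω := by
  have h1 : ∀ j, ∃ x : ℝ, (x : UnitAddCircle) = t j := fun j => QuotientAddGroup.mk_surjective (t j)
  choose x hx using h1
  have h2 := h z hz (fun j => 2 * π * x j)
  have h3 : (fun j => Complex.exp (Complex.I * ((2 * π * x j : ℝ) : ℂ)) * z j) = rot t z := by
    ext j
    rw [rot, ← hx j, fourier_one_coe]
    congr 2
    push_cast
    ring
  rwa [h3] at h2

lemma rot_add (s t : UnitAddTorus (Fin n)) (z : Fin n → ℂ) : rot s (rot t z) = rot (s + t) z := by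
  ext j
  simp only [rot, Pi.add_apply]
  rw [← mul_assoc]
  congr 1
  rw [fourier_apply, fourier_apply, fourier_apply, one_smul, one_smul, one_smul,
    AddCircle.toCircle_add]
  simp

lemma rot_zero (z : Fin n → ℂ) : rot 0 z = z := by
  ext j
  simp [rot]

lemma exists_rot {w w' : Fin n → ℂ} (h : ∀ j, ‖w j‖ = ‖w' j‖) : ∃ t, rot t w = w' := by
  have h1 : ∀ j, ∃ x : UnitAddCircle, (fourier 1 x : ℂ) * w j = w' j := by
    intro j
    by_cases hw : w j = 0
    · refine ⟨0, ?_⟩
      have h0 : w' j = 0 := by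
        rw [← norm_eq_zero, ← h j, hw, norm_zero]
      rw [hw, h0, mul_zero]
    · have hn : ‖w' j / w j‖ = 1 := by
        rw [norm_div, ← h j, div_self (norm_ne_zero_iff.2 hw)]
      refine ⟨((Complex.arg (w' j / w j) / (2 * π) : ℝ) : UnitAddCircle), ?_⟩
      rw [fourier_one_coe]
      have h2 : 2 * (π : ℂ) * I * ((Complex.arg (w' j / w j) / (2 * π) : ℝ) : ℂ)
          = (Complex.arg (w' j / w j) : ℂ) * I := by
        push_cast
        have : (π : ℂ) ≠ 0 := by exact_mod_cast Real.pi_ne_zero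
        field_simp
      rw [h2]
      have h3 := Complex.norm_mul_exp_arg_mul_I (w' j / w j)
      rw [hn] at h3
      simp only [ofReal_one, one_mul] at h3
      rw [h3, div_mul_cancel₀ _ hw]
  choose x hx using h1
  exact ⟨x, funext hx⟩

lemma continuous_rot : Continuous (fun p : UnitAddTorus (Fin n) × (Fin n → ℂ) => rot p.1 p.2) := by
  unfold rot
  fun_prop

/-- The average of `g` over the torus orbit of `z`. -/
def avg (g : (Fin n → ℂ) → ℂ) (z : Fin n → ℂ) : ℂ := ∫ t : UnitAddTorus (Fin n), g (rot t z)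

lemma avg_rot (g : (Fin n → ℂ) → ℂ) (s : UnitAddTorus (Fin n)) (z : Fin n → ℂ) :
    avg g (rot s z) = avg g z := by
  unfold avg
  simp_rw [rot_add]
  exact integral_add_right_eq_self (fun t => g (rot t z)) s

lemma cont_rot_left {g : (Fin n → ℂ) → ℂ} {S : Set (Fin n → ℂ)} (hg : ContinuousOn g S)
    (hR : ∀ z ∈ S, ∀ t, rot t z ∈ S) {z : Fin n → ℂ} (hz : z ∈ S) :
    Continuous (fun t => g (rot t z)) := by
  refine hg.comp_continuous ?_ (fun t => hR z hz t)
  exact continuous_rot.comp (by fun_prop : Continuous fun t : UnitAddTorus (Fin n) => (t, z))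

lemma integrable_of_cont {g : UnitAddTorus (Fin n) → ℂ} (hg : Continuous g) : Integrable g :=
  hg.integrable_of_hasCompactSupport (HasCompactSupport.of_compactSpace _)

/-- exponential path -/
def epath (z : Fin n → ℂ) (v : Fin n → ℝ) (ζ : ℂ) : Fin n → ℂ :=
  fun j => Complex.exp (ζ * v j) * z j

lemma epath_diff (z : Fin n → ℂ) (v : Fin n → ℝ) : Differentiable ℂ (epath z v) := by
  rw [differentiable_pi]
  intro j
  unfold epath
  fun_prop

lemma epath_add (z : Fin n → ℂ) (v : Fin n → ℝ) (ζ : ℂ) (τ : ℝ) :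
    epath z v (ζ + τ * I) = rot (fun j => ((τ * v j / (2 * π) : ℝ) : UnitAddCircle)) (epath z v ζ) := by
  ext j
  simp only [epath, rot]
  rw [fourier_one_coe, ← mul_assoc, ← Complex.exp_add]
  congr 2
  push_cast
  have : (π : ℂ) ≠ 0 := by exact_mod_cast Real.pi_ne_zero
  field_simp
  ring

lemma avg_hasDeriv {g : (Fin n → ℂ) → ℂ} {S : Set (Fin n → ℂ)} (hS : IsOpen S)
    (hR : ∀ z ∈ S, ∀ t, rot t z ∈ S) (hg : DifferentiableOn ℂ g S) (z : Fin n → ℂ)
    (v : Fin n → ℝ) (ζ₀ : ℂ) (h0 : epath z v ζ₀ ∈ S) :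
    HasDerivAt (fun ζ => avg g (epath z v ζ)) 0 ζ₀ := by
  have hU : IsOpen {ζ | epath z v ζ ∈ S} := hS.preimage (epath_diff z v).continuous
  obtain ⟨r', hr', hsub⟩ := Metric.nhds_basis_closedBall.mem_iff.1 (hU.mem_nhds h0)
  set r := r' / 2 with hr
  have hr0 : 0 < r := by positivity
  set K : Set (Fin n → ℂ) := (fun p : UnitAddTorus (Fin n) × ℂ => rot p.1 (epath z v p.2)) ''
    (univ ×ˢ closedBall ζ₀ r') with hK
  have hKc : IsCompact K := by
    refine (isCompact_univ.prod (isCompact_closedBall ζ₀ r')).image ?_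
    exact continuous_rot.comp (continuous_fst.prodMk ((epath_diff z v).continuous.comp continuous_snd))
  have hKS : K ⊆ S := by
    rintro _ ⟨⟨t, ζ⟩, ⟨-, hζ⟩, rfl⟩
    exact hR _ (hsub hζ) t
  obtain ⟨B, hB⟩ := hKc.exists_bound_of_continuousOn (hg.continuousOn.mono hKS)
  have hcont : ∀ ζ, epath z v ζ ∈ S → Continuous (fun t => g (rot t (epath z v ζ))) :=
    fun ζ hζ => cont_rot_left hg.continuousOn hR hζ
  have hdiff : ∀ t : UnitAddTorus (Fin n), ∀ ζ, epath z v ζ ∈ S →
      DifferentiableAt ℂ (fun ζ => g (rot t (epath z v ζ))) ζ := by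
    intro t ζ hζ
    have h1 : DifferentiableAt ℂ g (rot t (epath z v ζ)) :=
      hg.differentiableAt (hS.mem_nhds (hR _ hζ t))
    have h2 : DifferentiableAt ℂ (fun ζ => rot t (epath z v ζ)) ζ := by
      rw [differentiableAt_pi]
      intro j
      simp only [rot]
      exact (((differentiable_pi.1 (epath_diff z v)) j) ζ).const_mul _
    exact h1.comp ζ h2
  have hmem : ∀ ζ ∈ ball ζ₀ r, ∀ w ∈ closedBall ζ r, epath z v w ∈ S := by
    intro ζ hζ w hw
    apply hsub
    rw [mem_ball] at hζ
    rw [mem_closedBall] at hw ⊢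
    have := dist_triangle w ζ ζ₀
    linarith
  have hmain := hasDerivAt_integral_of_dominated_loc_of_deriv_le
    (μ := (volume : Measure (UnitAddTorus (Fin n))))
    (F := fun ζ t => g (rot t (epath z v ζ)))
    (F' := fun ζ t => deriv (fun ζ => g (rot t (epath z v ζ))) ζ)
    (x₀ := ζ₀) (bound := fun _ => B / r) (ball_mem_nhds ζ₀ hr0)
    (by
      filter_upwards [ball_mem_nhds ζ₀ hr0] with ζ hζ
      exact (hcont ζ (hmem ζ hζ ζ (mem_closedBall_self hr0.le))).aestronglyMeasurable)
    (integrable_of_cont (hcont ζ₀ h0))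
    (by
      -- measurability of the derivative
      have hseq : ∀ k : ℕ, ζ₀ + ((r / (k + 1) : ℝ) : ℂ) ∈ closedBall ζ₀ r := by
        intro k
        rw [mem_closedBall, dist_eq_norm, add_sub_cancel_left, Complex.norm_real, Real.norm_eq_abs,
          abs_of_nonneg (by positivity)]
        apply div_le_self hr0.le
        have : (0 : ℝ) ≤ k := Nat.cast_nonneg k
        linarith
      refine aestronglyMeasurable_of_tendsto_ae (u := atTop)
        (f := fun (k : ℕ) (t : UnitAddTorus (Fin n)) =>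
          ((((r / (k + 1) : ℝ) : ℂ))⁻¹ * (g (rot t (epath z v (ζ₀ + ((r / (k + 1) : ℝ) : ℂ))))
            - g (rot t (epath z v ζ₀))))) ?_ ?_
      · intro k
        exact (((hcont _ (hmem ζ₀ (mem_ball_self hr0) _ (hseq k))).sub
          (hcont ζ₀ h0)).const_mul _).aestronglyMeasurable
      · refine Eventually.of_forall fun t => ?_
        have h1 := (hdiff t ζ₀ h0).hasDerivAt
        have h2 := h1.tendsto_slope_zero
        have h3 : Tendsto (fun k : ℕ => ((r / (k + 1) : ℝ) : ℂ)) atTop (𝓝[≠] 0) := by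
          rw [tendsto_nhdsWithin_iff]
          refine ⟨?_, ?_⟩
          · have : Tendsto (fun k : ℕ => (r / (k + 1) : ℝ)) atTop (𝓝 0) := by
              have h4 := (tendsto_one_div_add_atTop_nhds_zero_nat (𝕜 := ℝ)).const_mul r
              rw [mul_zero] at h4
              refine h4.congr (fun k => ?_)
              ring
            have h5 := (Complex.continuous_ofReal.tendsto 0).comp this
            simpa [Function.comp_def] using h5
          · refine Eventually.of_forall fun k => ?_
            rw [mem_compl_iff, mem_singleton_iff, Complex.ofReal_eq_zero]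
            have : (0 : ℝ) ≤ k := Nat.cast_nonneg k
            positivity
        have h6 := h2.comp h3
        simpa [Function.comp_def, smul_eq_mul] using h6)
    (by
      refine Eventually.of_forall fun t ζ hζ => ?_
      refine Complex.norm_deriv_le_of_forall_mem_sphere_norm_le hr0 ?_ ?_
      · apply DifferentiableOn.diffContOnCl
        rw [closure_ball ζ hr0.ne']
        intro w hw
        exact (hdiff t w (hmem ζ hζ w hw)).differentiableWithinAt
      · intro w hw
        apply hB
        refine ⟨(t, w), ⟨mem_univ _, ?_⟩, rfl⟩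
        have hw' := sphere_subset_closedBall hw
        rw [mem_closedBall] at hw' ⊢
        rw [mem_ball] at hζ
        have := dist_triangle w ζ ζ₀
        simp only
        linarith)
    (integrable_const _)
    (by
      refine Eventually.of_forall fun t ζ hζ => ?_
      exact (hdiff t ζ (hmem ζ hζ ζ (mem_closedBall_self hr0.le))).hasDerivAt)
  obtain ⟨-, hD⟩ := hmain
  set D := ∫ t : UnitAddTorus (Fin n), deriv (fun ζ => g (rot t (epath z v ζ))) ζ₀ with hDdef
  have hD' : HasDerivAt (fun ζ => avg g (epath z v ζ)) D ζ₀ := hD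
  -- derivative in the imaginary direction is zero
  have hline : HasDerivAt (fun τ : ℝ => ζ₀ + τ * I) I 0 := by
    have h1 : HasDerivAt (fun τ : ℝ => (τ : ℂ)) 1 0 := Complex.ofRealCLM.hasDerivAt
    simpa using (h1.mul_const I).const_add ζ₀
  have h1 : HasDerivAt (fun τ : ℝ => avg g (epath z v (ζ₀ + τ * I))) (D * I) 0 := by
    have hD'' : HasFDerivAt (fun ζ => avg g (epath z v ζ))
        ((ContinuousLinearMap.toSpanSingleton ℂ D).restrictScalars ℝ) (ζ₀ + ((0 : ℝ) : ℂ) * I) := by
      have := hD'.hasFDerivAt.restrictScalars ℝ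
      simpa using this
    have h2 := hD''.comp_hasDerivAt (0 : ℝ) hline
    have h3 : ((ContinuousLinearMap.toSpanSingleton ℂ D).restrictScalars ℝ) I = D * I := by
      simp [mul_comm]
    rw [h3] at h2
    exact h2
  have h2 : (fun τ : ℝ => avg g (epath z v (ζ₀ + τ * I))) = fun _ => avg g (epath z v ζ₀) := by
    ext τ
    rw [epath_add, avg_rot]
  rw [h2] at h1
  have h3 := h1.unique (hasDerivAt_const (0 : ℝ) (avg g (epath z v ζ₀)))
  have h4 : D = 0 := by
    rcases mul_eq_zero.1 h3 with h | h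
    · exact h
    · exact absurd h I_ne_zero
  rwa [h4] at hD'

lemma avg_path {g : (Fin n → ℂ) → ℂ} {S : Set (Fin n → ℂ)} (hS : IsOpen S)
    (hR : ∀ z ∈ S, ∀ t, rot t z ∈ S) (hg : DifferentiableOn ℂ g S) (z : Fin n → ℂ)
    (v : Fin n → ℝ) (hz : ∀ s ∈ Icc (0 : ℝ) 1, epath z v s ∈ S) :
    avg g (epath z v 1) = avg g z := by
  have h1 : ∀ s ∈ Icc (0 : ℝ) 1, HasDerivAt (fun s : ℝ => avg g (epath z v s)) 0 s := by
    intro s hs
    have := (avg_hasDeriv hS hR hg z v s (hz s hs)).comp_ofReal
    exact this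
  have h2 := constant_of_has_deriv_right_zero (f := fun s : ℝ => avg g (epath z v s)) (a := 0)
    (b := 1) (fun s hs => (h1 s hs).continuousAt.continuousWithinAt)
    (fun s hs => (h1 s ⟨hs.1, hs.2.le⟩).hasDerivWithinAt) 1 (right_mem_Icc.2 zero_le_one)
  have h3 : epath z v ((0 : ℝ) : ℂ) = z := by
    ext j; simp [epath]
  simp only [h3, ofReal_one] at h2
  exact h2

end

end Pool.Agent.U565.HK
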