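import Pool.Agent.U565.HK.Avg

set_option autoImplicit false

open MeasureTheory Topology Filter Set Metric Complex
open scoped ComplexConjugate Real

namespace Pool.Agent.U565.HK

noncomputable section

variable {n : ℕ}

/-- The points of `Ω` with no vanishing coordinate. -/
def star' (Ω : Set (Fin n → ℂ)) : Set (Fin n → ℂ) := {z | z ∈ Ω ∧ ∀ j, z j ≠ 0}

lemma isOpen_star {Ω : Set (Fin n → ℂ)} (hΩ : IsOpen Ω) : IsOpen (star' Ω) := by
  have h : star' Ω = Ω ∩ ⋂ j, {z | z j ≠ 0} := by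
    ext z; simp [star']
  rw [h]
  refine hΩ.inter (isOpen_iInter_of_finite fun j => ?_)
  exact isOpen_ne.preimage (continuous_apply j)

lemma star_rot {Ω : Set (Fin n → ℂ)} (hR : IsReinhardt Ω) :
    ∀ z ∈ star' Ω, ∀ t, rot t z ∈ star' Ω := by
  intro z hz t
  refine ⟨hR.rot_mem hz.1 t, fun j => ?_⟩
  rw [← norm_ne_zero_iff, norm_rot, norm_ne_zero_iff]
  exact hz.2 j

/-- points near `p` with all coordinates nonzero -/
lemma exists_near {Ω : Set (Fin n → ℂ)} (hΩ : IsOpen Ω) {p : Fin n → ℂ} (hp : p ∈ Ω)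
    {ε : ℝ} (hε : 0 < ε) : ∃ w ∈ star' Ω, w ∈ ball p ε ∧ ∀ j, p j ≠ 0 → w j = p j := by
  obtain ⟨δ, hδ, hsub⟩ := Metric.isOpen_iff.1 hΩ p hp
  set η := min δ ε / 2 with hη
  have hη0 : 0 < η := by positivity
  set w : Fin n → ℂ := fun j => if p j = 0 then (η : ℂ) else p j with hw
  have hd : dist w p ≤ η := by
    rw [dist_pi_le_iff hη0.le]
    intro j
    simp only [hw]
    split_ifs with h
    · rw [h, dist_zero_right, Complex.norm_real, Real.norm_eq_abs, abs_of_pos hη0]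
    · rw [dist_self]; exact hη0.le
  refine ⟨w, ⟨hsub ?_, fun j => ?_⟩, ?_, fun j hj => by simp [hw, hj]⟩
  · rw [mem_ball]; have := min_le_left δ ε; linarith
  · simp only [hw]
    split_ifs with h
    · exact_mod_cast hη0.ne'
    · exact h
  · rw [mem_ball]; have := min_le_right δ ε; linarith

/-- box neighbourhoods in the absolute values -/
lemma exists_box {Ω : Set (Fin n → ℂ)} (hΩ : IsOpen Ω) (hR : IsReinhardt Ω) {p : Fin n → ℂ}
    (hp : p ∈ Ω) : ∃ ε : ℝ, 0 < ε ∧ ∀ w : Fin n → ℂ, (∀ j, |‖w j‖ - ‖p j‖| < ε) → w ∈ Ω := by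
  obtain ⟨δ, hδ, hsub⟩ := Metric.isOpen_iff.1 hΩ p hp
  refine ⟨δ, hδ, fun w hw => ?_⟩
  -- the vector with the arguments of `p` and the moduli of `w`
  set q : Fin n → ℂ := fun j => if p j = 0 then (‖w j‖ : ℂ) else (‖w j‖ / ‖p j‖ : ℝ) * p j with hq
  have hn : ∀ j, ‖q j‖ = ‖w j‖ := by
    intro j
    simp only [hq]
    split_ifs with h
    · simp
    · rw [norm_mul, Complex.norm_real, Real.norm_eq_abs, abs_of_nonneg (by positivity),
        div_mul_cancel₀ _ (norm_ne_zero_iff.2 h)]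
  have hqd : q ∈ ball p δ := by
    rw [mem_ball, dist_pi_lt_iff hδ]
    intro j
    have h1 := hw j
    simp only [hq]
    split_ifs with h
    · rw [h, norm_zero, sub_zero] at h1
      rw [h, dist_zero_right, Complex.norm_real, Real.norm_eq_abs]
      simpa using h1
    · have h2 : ‖p j‖ ≠ 0 := norm_ne_zero_iff.2 h
      rw [dist_eq_norm]
      have h3 : ((‖w j‖ / ‖p j‖ : ℝ) : ℂ) * p j - p j = (((‖w j‖ - ‖p j‖) / ‖p j‖ : ℝ) : ℂ) * p j := by
        rw [sub_div, div_self h2]; push_cast; ring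
      rw [h3, norm_mul, Complex.norm_real, Real.norm_eq_abs, abs_div, abs_norm,
        div_mul_cancel₀ _ h2]
      exact h1
  obtain ⟨t, ht⟩ := exists_rot hn
  rw [← ht]
  exact hR.rot_mem (hsub hqd) t

/-- local constancy of torus averages near any point of `Ω` -/
lemma avg_local {Ω : Set (Fin n → ℂ)} (hΩ : IsOpen Ω) (hR : IsReinhardt Ω) {g : (Fin n → ℂ) → ℂ}
    (hg : DifferentiableOn ℂ g (star' Ω)) {p : Fin n → ℂ} (hp : p ∈ Ω) :
    ∃ ε : ℝ, 0 < ε ∧ ∀ w ∈ ball p ε, ∀ w' ∈ ball p ε, w ∈ star' Ω → w' ∈ star' Ω →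
      avg g w = avg g w' := by
  obtain ⟨ε, hε, hbox⟩ := exists_box hΩ hR hp
  refine ⟨ε, hε, fun w hw w' hw' hws hws' => ?_⟩
  have hb : ∀ w ∈ ball p ε, ∀ j, |‖w j‖ - ‖p j‖| < ε := by
    intro w hw j
    refine (abs_norm_sub_norm_le _ _).trans_lt ?_
    rw [← dist_eq_norm]
    rw [mem_ball, dist_pi_lt_iff hε] at hw
    exact hw j
  set v : Fin n → ℝ := fun j => Real.log (‖w' j‖ / ‖w j‖) with hv
  have hwp : ∀ j, 0 < ‖w j‖ := fun j => norm_pos_iff.2 (hws.2 j)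
  have hwp' : ∀ j, 0 < ‖w' j‖ := fun j => norm_pos_iff.2 (hws'.2 j)
  have hnorm : ∀ s : ℝ, ∀ j, ‖epath w v s j‖ = Real.exp (s * v j) * ‖w j‖ := by
    intro s j
    simp only [epath]
    rw [norm_mul, Complex.norm_exp]
    congr 2
    rw [← Complex.ofReal_mul, Complex.ofReal_re]
  have hexp : ∀ j, Real.exp (v j) = ‖w' j‖ / ‖w j‖ := fun j => Real.exp_log (by
    have := hwp j; have := hwp' j; positivity)
  have hpath : ∀ s ∈ Icc (0 : ℝ) 1, epath w v s ∈ star' Ω := by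
    intro s hs
    refine ⟨hbox _ fun j => ?_, fun j => ?_⟩
    · rw [hnorm]
      have h1 := abs_lt.1 (hb w hw j)
      have h2 := abs_lt.1 (hb w' hw' j)
      -- the modulus lies between ‖w j‖ and ‖w' j‖
      rcases le_total 0 (v j) with hv0 | hv0
      · have h3 : 1 ≤ Real.exp (s * v j) := Real.one_le_exp (mul_nonneg hs.1 hv0)
        have h4 : Real.exp (s * v j) ≤ ‖w' j‖ / ‖w j‖ := by
          rw [← hexp]; exact Real.exp_le_exp.2 (by nlinarith [hs.2])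
        have h5 : Real.exp (s * v j) * ‖w j‖ ≤ ‖w' j‖ := by
          rwa [le_div_iff₀ (hwp j)] at h4
        have h6 : ‖w j‖ ≤ Real.exp (s * v j) * ‖w j‖ := by nlinarith [hwp j]
        rw [abs_lt]
        constructor <;> linarith
      · have h3 : Real.exp (s * v j) ≤ 1 := Real.exp_le_one_iff.2 (mul_nonpos_of_nonneg_of_nonpos hs.1 hv0)
        have h4 : ‖w' j‖ / ‖w j‖ ≤ Real.exp (s * v j) := by
          rw [← hexp]; exact Real.exp_le_exp.2 (by nlinarith [hs.2])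
        have h5 : ‖w' j‖ ≤ Real.exp (s * v j) * ‖w j‖ := by
          rwa [div_le_iff₀ (hwp j)] at h4
        have h6 : Real.exp (s * v j) * ‖w j‖ ≤ ‖w j‖ := by nlinarith [hwp j]
        rw [abs_lt]
        constructor <;> linarith
    · simp only [epath]
      exact mul_ne_zero (Complex.exp_ne_zero _) (hws.2 j)
  have h1 := avg_path (isOpen_star hΩ) (star_rot hR) hg w v hpath
  have h2 : ∀ j, ‖epath w v 1 j‖ = ‖w' j‖ := by
    intro j
    have := hnorm 1 j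
    rw [Complex.ofReal_one, one_mul, hexp, div_mul_cancel₀ _ (hwp j).ne'] at this
    exact this
  obtain ⟨t, ht⟩ := exists_rot h2
  rw [← h1, ← ht, avg_rot]

/-- torus averages are constant -/
lemma avg_const {Ω : Set (Fin n → ℂ)} (hΩ : IsOpen Ω) (hc : IsPreconnected Ω)
    (hR : IsReinhardt Ω) {g : (Fin n → ℂ) → ℂ}
    (hg : DifferentiableOn ℂ g (star' Ω)) : ∃ C : ℂ, ∀ z ∈ star' Ω, avg g z = C := by
  rcases (star' Ω).eq_empty_or_nonempty with h0 | ⟨z₀, hz₀⟩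
  · exact ⟨0, fun z hz => by rw [h0] at hz; exact absurd hz (notMem_empty z)⟩
  refine ⟨avg g z₀, ?_⟩
  set U : Set (Fin n → ℂ) := {p | ∃ ε : ℝ, 0 < ε ∧ ∀ w ∈ ball p ε, w ∈ star' Ω → avg g w = avg g z₀}
    with hU
  set V : Set (Fin n → ℂ) := {p | ∃ ε : ℝ, 0 < ε ∧ ∀ w ∈ ball p ε, w ∈ star' Ω → avg g w ≠ avg g z₀}
    with hV
  have hopen : ∀ P : (Fin n → ℂ) → Prop,
      IsOpen {p | ∃ ε : ℝ, 0 < ε ∧ ∀ w ∈ ball p ε, P w} := by
    intro P
    rw [Metric.isOpen_iff]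
    rintro p ⟨ε, hε, h⟩
    refine ⟨ε / 2, by positivity, fun q hq => ⟨ε / 2, by positivity, fun w hw => h w ?_⟩⟩
    rw [mem_ball] at *
    have := dist_triangle w q p
    linarith
  have hUo : IsOpen U := hopen _
  have hVo : IsOpen V := hopen _
  have hcov : Ω ⊆ U ∪ V := by
    intro p hp
    obtain ⟨ε, hε, h⟩ := avg_local hΩ hR hg hp
    obtain ⟨w, hw, hwb, -⟩ := exists_near hΩ hp hε
    by_cases hEq : avg g w = avg g z₀
    · left
      exact ⟨ε, hε, fun w' hw' hs' => (h w' hw' w hwb hs' hw).trans hEq⟩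
    · right
      exact ⟨ε, hε, fun w' hw' hs' h' => hEq ((h w hwb w' hw' hw hs').trans h')⟩
  have hUne : (Ω ∩ U).Nonempty := by
    refine ⟨z₀, hz₀.1, ?_⟩
    obtain ⟨ε, hε, h⟩ := avg_local hΩ hR hg hz₀.1
    exact ⟨ε, hε, fun w' hw' hs' => h w' hw' z₀ (mem_ball_self hε) hs' hz₀⟩
  have hdisj : ¬ (Ω ∩ (U ∩ V)).Nonempty := by
    rintro ⟨p, hp, ⟨ε, hε, h⟩, ⟨ε', hε', h'⟩⟩
    obtain ⟨w, hw, hwb, -⟩ := exists_near hΩ hp (lt_min hε hε')
    exact h' w (ball_subset_ball (min_le_right _ _) hwb) hw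
      (h w (ball_subset_ball (min_le_left _ _) hwb) hw)
  intro z hz
  by_contra hne
  apply hdisj
  refine hc U V hUo hVo hcov hUne ⟨z, hz.1, ?_⟩
  rcases hcov hz.1 with ⟨ε, hε, h⟩ | h
  · exact absurd (h z (mem_ball_self hε) hz) hne
  · exact h

end

end Pool.Agent.U565.HK
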