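import Pool.Agent.H471R3.BGMontel
import Pool.Agent.H158I.BGMV

set_option autoImplicit false

open MeasureTheory Topology Filter Set Metric Complex
open scoped ComplexConjugate Real ENNReal NNReal

namespace Pool.Agent.U565.HK

noncomputable section

variable {n : ℕ}

/-- Lebesgue measure on the open set `Ω ⊆ ℂⁿ`. -/
abbrev vol (Ω : TopologicalSpace.Opens (Fin n → ℂ)) : Measure (Fin n → ℂ) :=
  volume.restrict (Ω : Set (Fin n → ℂ))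

/-- `u ∈ L²(Ω)` is represented by a holomorphic function on `Ω`. -/
def IsHolo (Ω : TopologicalSpace.Opens (Fin n → ℂ)) (u : Lp ℂ 2 (vol Ω)) : Prop :=
  ∃ g : (Fin n → ℂ) → ℂ, DifferentiableOn ℂ g Ω ∧ ⇑u =ᵐ[vol Ω] g

theorem IsHolo.add {Ω : TopologicalSpace.Opens (Fin n → ℂ)} {u v : Lp ℂ 2 (vol Ω)}
    (hu : IsHolo Ω u) (hv : IsHolo Ω v) : IsHolo Ω (u + v) := by
  obtain ⟨g, hg, hug⟩ := hu
  obtain ⟨h, hh, hvh⟩ := hv
  exact ⟨g + h, hg.add hh, (Lp.coeFn_add u v).trans (hug.add hvh)⟩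

theorem IsHolo.zero (Ω : TopologicalSpace.Opens (Fin n → ℂ)) : IsHolo Ω (0 : Lp ℂ 2 (vol Ω)) :=
  ⟨0, differentiableOn_const 0, Lp.coeFn_zero ℂ 2 _⟩

theorem IsHolo.smul {Ω : TopologicalSpace.Opens (Fin n → ℂ)} (c : ℂ) {u : Lp ℂ 2 (vol Ω)}
    (hu : IsHolo Ω u) : IsHolo Ω (c • u) := by
  obtain ⟨g, hg, hug⟩ := hu
  exact ⟨c • g, hg.const_smul c, (Lp.coeFn_smul c u).trans (hug.const_smul c)⟩

/-- The Bergman space `A²(Ω)`: the elements of `L²(Ω)` represented by a holomorphic function. -/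
def bergman (Ω : TopologicalSpace.Opens (Fin n → ℂ)) : Submodule ℂ (Lp ℂ 2 (vol Ω)) where
  carrier := {u | IsHolo Ω u}
  add_mem' := IsHolo.add
  zero_mem' := IsHolo.zero Ω
  smul_mem' := fun c _ hu => IsHolo.smul c hu

lemma lint_sq {X : Type*} [MeasurableSpace X] {μ : Measure X} (u : Lp ℂ 2 μ) :
    ∫⁻ z, ‖u z‖ₑ ^ 2 ∂μ = ENNReal.ofReal (‖u‖ ^ 2) := by
  have h1 : eLpNorm u 2 μ = (∫⁻ z, ‖u z‖ₑ ^ (2 : ℝ) ∂μ) ^ (1 / (2 : ℝ)) := by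
    have := eLpNorm_eq_lintegral_rpow_enorm_toReal (f := u) (μ := μ) (p := 2) (by norm_num) (by norm_num)
    simpa using this
  have h2 : ∫⁻ z, ‖u z‖ₑ ^ 2 ∂μ = ∫⁻ z, ‖u z‖ₑ ^ (2 : ℝ) ∂μ := by
    refine lintegral_congr fun z => ?_
    rw [← ENNReal.rpow_natCast]; norm_num
  have h3 : eLpNorm u 2 μ ^ (2 : ℕ) = ∫⁻ z, ‖u z‖ₑ ^ (2 : ℝ) ∂μ := by
    rw [h1, ← ENNReal.rpow_natCast, ← ENNReal.rpow_mul]; norm_num
  rw [h2, ← h3, Lp.norm_def, ENNReal.ofReal_pow ENNReal.toReal_nonneg,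
    ENNReal.ofReal_toReal (Lp.eLpNorm_ne_top u)]

/-- The Bergman space is closed. -/
theorem isClosed_bergman (Ω : TopologicalSpace.Opens (Fin n → ℂ)) :
    IsClosed (bergman Ω : Set (Lp ℂ 2 (vol Ω))) := by
  rw [← isSeqClosed_iff_isClosed]
  intro u v hu hv
  choose g hg hug using hu
  obtain ⟨C, hC⟩ := (hv.norm.bddAbove_range)
  have hC' : ∀ k, ‖u k‖ ≤ C := fun k => hC ⟨k, rfl⟩
  have hint : ∀ k, ∫⁻ z in (Ω : Set (Fin n → ℂ)), ‖g k z‖ₑ ^ 2 ≤ ((C ^ 2).toNNReal : ℝ≥0) := by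
    intro k
    have h1 : ∫⁻ z in (Ω : Set (Fin n → ℂ)), ‖g k z‖ₑ ^ 2 = ∫⁻ z, ‖u k z‖ₑ ^ 2 ∂(vol Ω) := by
      refine lintegral_congr_ae ?_
      filter_upwards [hug k] with z hz
      rw [hz]
    rw [h1, lint_sq]
    have h2 : ‖u k‖ ^ 2 ≤ C ^ 2 := pow_le_pow_left₀ (norm_nonneg _) (hC' k) 2
    exact ENNReal.ofReal_le_ofReal h2
  obtain ⟨G, φ, hφ, hG, hconv⟩ := Pool.Agent.H301X.BG.taskMontel Pool.Agent.H158I.BGMV.taskMV n Ω g
    _ Ω.isOpen hg hint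
  have hpt : ∀ z ∈ Ω, Tendsto (fun j => g (φ j) z) atTop (𝓝 (G z)) := by
    intro z hz
    have := hconv {z} isCompact_singleton (by simpa using hz)
    exact this.tendsto_at (mem_singleton z)
  -- a.e. convergence of a subsequence
  have h1 : Tendsto (fun j => u (φ j)) atTop (𝓝 v) := hv.comp hφ.tendsto_atTop
  have h2 : TendstoInMeasure (vol Ω) (fun j => u (φ j)) atTop v :=
    tendstoInMeasure_of_tendsto_Lp h1
  obtain ⟨ψ, hψ, hae⟩ := h2.exists_seq_tendsto_ae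
  refine ⟨G, hG, ?_⟩
  have h3 : ∀ᵐ z ∂(vol Ω), ∀ k, u k z = g k z := ae_all_iff.2 hug
  have h4 : ∀ᵐ z ∂(vol Ω), z ∈ Ω := ae_restrict_mem Ω.isOpen.measurableSet
  filter_upwards [hae, h3, h4] with z hz1 hz2 hz3
  have h5 : Tendsto (fun j => g (φ (ψ j)) z) atTop (𝓝 (G z)) := (hpt z hz3).comp hψ.tendsto_atTop
  have h6 : (fun j => u (φ (ψ j)) z) = fun j => g (φ (ψ j)) z := by
    ext j; exact hz2 _
  rw [h6] at hz1
  exact tendsto_nhds_unique hz1 h5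

theorem completeSpace_bergman (Ω : TopologicalSpace.Opens (Fin n → ℂ)) :
    CompleteSpace (bergman Ω) :=
  (isClosed_bergman Ω).completeSpace_coe

instance (Ω : TopologicalSpace.Opens (Fin n → ℂ)) : CompleteSpace (bergman Ω) :=
  completeSpace_bergman Ω

/-- The Bergman projection: the orthogonal projection of `L²(Ω)` onto `A²(Ω)`. -/
def bergmanProj (Ω : TopologicalSpace.Opens (Fin n → ℂ)) : Lp ℂ 2 (vol Ω) →L[ℂ] Lp ℂ 2 (vol Ω) :=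
  (bergman Ω).starProjection

/-- `g ∈ A²(Ω)` belongs to the domain of the Hankel operator with symbol `φ` iff
`φ g ∈ L²(Ω)`. -/
def InDom (Ω : TopologicalSpace.Opens (Fin n → ℂ)) (φ : (Fin n → ℂ) → ℂ) (g : bergman Ω) : Prop :=
  MemLp (fun z => φ z * (g : Lp ℂ 2 (vol Ω)) z) 2 (vol Ω)

/-- The Hankel operator `H_φ g = (I - P)(φ g)`, where `P` is the orthogonal projection of
`L²(Ω)` onto `A²(Ω)`. -/
def hankel (Ω : TopologicalSpace.Opens (Fin n → ℂ)) (φ : (Fin n → ℂ) → ℂ) (g : bergman Ω)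
    (h : InDom Ω φ g) : Lp ℂ 2 (vol Ω) :=
  MemLp.toLp (fun z => φ z * (g : Lp ℂ 2 (vol Ω)) z) h
    - bergmanProj Ω (MemLp.toLp (fun z => φ z * (g : Lp ℂ 2 (vol Ω)) z) h)

/-- `T` is Hilbert-Schmidt: `∑ ‖T e_k‖² < ∞` for some orthonormal (Hilbert) basis of `A²(Ω)`. -/
def IsHS (Ω : TopologicalSpace.Opens (Fin n → ℂ)) (T : bergman Ω →L[ℂ] Lp ℂ 2 (vol Ω)) : Prop :=
  ∃ (ι : Type) (b : HilbertBasis ι ℂ (bergman Ω)), Summable fun i => ‖T (b i)‖ ^ 2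

/-- `H_φ` is Hilbert-Schmidt: it is densely defined, and extends to a bounded operator
`T : A²(Ω) → L²(Ω)` which is Hilbert-Schmidt. -/
def IsHilbertSchmidtHankel (Ω : TopologicalSpace.Opens (Fin n → ℂ)) (φ : (Fin n → ℂ) → ℂ) : Prop :=
  Dense {g : bergman Ω | InDom Ω φ g} ∧
    ∃ T : bergman Ω →L[ℂ] Lp ℂ 2 (vol Ω), (∀ (g : bergman Ω) (h : InDom Ω φ g), T g = hankel Ω φ g h) ∧
      IsHS Ω T

end

end Pool.Agent.U565.HK
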