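import Pool.Agent.U565.HK.Laurent
import Pool.Agent.U565.HK.Defs

set_option autoImplicit false

open MeasureTheory Topology Filter Set Metric Complex
open scoped ComplexConjugate Real ENNReal NNReal

namespace Pool.Agent.U565.HK

noncomputable section

/-- Normalised Haar measure on the unit circle. -/
local instance : MeasureSpace UnitAddCircle := ⟨AddCircle.haarAddCircle⟩

local instance : Measure.IsAddHaarMeasure (volume : Measure UnitAddCircle) :=
  inferInstanceAs (Measure.IsAddHaarMeasure AddCircle.haarAddCircle)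

local instance : IsProbabilityMeasure (volume : Measure UnitAddCircle) :=
  inferInstanceAs (IsProbabilityMeasure AddCircle.haarAddCircle)

variable {n : ℕ}

lemma measurable_mono (α : Fin n → ℤ) : Measurable (mono α) := by
  unfold mono
  fun_prop

lemma inner_ind {Ω : TopologicalSpace.Opens (Fin n → ℂ)} {K : Set (Fin n → ℂ)}
    (hK : MeasurableSet K) (hKΩ : K ⊆ Ω) {u : (Fin n → ℂ) → ℂ}
    (hu : MemLp (K.indicator u) 2 (vol Ω)) (V : Lp ℂ 2 (vol Ω)) :
    inner ℂ (hu.toLp _) V = ∫ z in K, conj (u z) * V z := by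
  rw [L2.inner_def]
  have h1 : ∫ z, inner ℂ ((hu.toLp _ : Lp ℂ 2 (vol Ω)) z) (V z) ∂(vol Ω) =
      ∫ z, K.indicator (fun z => conj (u z) * V z) z ∂(vol Ω) := by
    refine integral_congr_ae ?_
    filter_upwards [hu.coeFn_toLp] with z hz
    rw [hz]
    by_cases h : z ∈ K
    · simp [h, RCLike.inner_apply, mul_comm]
    · simp [h]
  rw [h1, integral_indicator hK, Measure.restrict_restrict hK, inter_eq_self_of_subset_left hKΩ]

/-- weights -/
def Wt (K : Set (Fin n → ℂ)) (β : Fin n → ℤ) (u : (Fin n → ℂ) → ℂ) : Prop :=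
  ∀ z ∈ K, ∀ t : UnitAddTorus (Fin n), u (rot t z) = UnitAddTorus.mFourier β t * u z

lemma pairing {Ω : Set (Fin n → ℂ)} {K : Set (Fin n → ℂ)} (hK : MeasurableSet K)
    (hKΩ : K ⊆ star' Ω) (hKR : ∀ t z, rot t z ∈ K ↔ z ∈ K) {β : Fin n → ℤ}
    {u v : (Fin n → ℂ) → ℂ} (hu : Wt K β u) (hint : IntegrableOn (fun z => conj (u z) * v z) K)
    {C : ℂ} (hC : ∀ z ∈ star' Ω, ∫ t : UnitAddTorus (Fin n),
      v (rot t z) * UnitAddTorus.mFourier (-β) t = C * mono β z) :
    ∫ z in K, conj (u z) * v z = C * ∫ z in K, conj (u z) * mono β z := by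
  rw [integral_avg hK hKR hint, ← integral_const_mul]
  refine setIntegral_congr_fun hK fun z hz => ?_
  have h1 : ∀ t : UnitAddTorus (Fin n), conj (u (rot t z)) * v (rot t z) =
      conj (u z) * (v (rot t z) * UnitAddTorus.mFourier (-β) t) := by
    intro t
    rw [hu z hz t, map_mul, UnitAddTorus.mFourier_neg]
    ring
  simp only [h1]
  rw [integral_const_mul, hC z (hKΩ hz)]
  ring

/-- The second pairing: `∫_K conj (u f) z^γ`. -/
lemma pairing2 {Ω : Set (Fin n → ℂ)} {K : Set (Fin n → ℂ)} (hK : MeasurableSet K)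
    (hKΩ : K ⊆ star' Ω) (hKR : ∀ t z, rot t z ∈ K ↔ z ∈ K) {α γ : Fin n → ℤ}
    {u f : (Fin n → ℂ) → ℂ} (hu : Wt K (γ - α) u)
    (hint : IntegrableOn (fun z => conj (u z * f z) * mono γ z) K)
    {C : ℂ} (hC : ∀ z ∈ star' Ω, ∫ t : UnitAddTorus (Fin n),
      f (rot t z) * UnitAddTorus.mFourier (-α) t = C * mono α z) :
    ∫ z in K, conj (u z * f z) * mono γ z =
      conj C * ∫ z in K, conj (u z) * (conj (mono α z) * mono γ z) := by
  rw [integral_avg hK hKR hint, ← integral_const_mul]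
  refine setIntegral_congr_fun hK fun z hz => ?_
  have h1 : ∀ t : UnitAddTorus (Fin n), conj (u (rot t z) * f (rot t z)) * mono γ (rot t z) =
      (conj (u z) * mono γ z) * conj (f (rot t z) * UnitAddTorus.mFourier (-α) t) := by
    intro t
    have h2 : conj (UnitAddTorus.mFourier (γ - α) t) * UnitAddTorus.mFourier γ t
        = conj (UnitAddTorus.mFourier (-α) t) := by
      rw [← UnitAddTorus.mFourier_neg, ← UnitAddTorus.mFourier_neg, ← UnitAddTorus.mFourier_add]
      congr 2
      ring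
    rw [hu z hz t, mono_rot, map_mul, map_mul, map_mul, ← h2]
    ring
  simp only [h1]
  rw [integral_const_mul, integral_conj, hC z (hKΩ hz), map_mul]
  ring

structure GoodSet (Ω : Set (Fin n → ℂ)) (f : (Fin n → ℂ) → ℂ) (K : Set (Fin n → ℂ)) : Prop where
  meas : MeasurableSet K
  sub : K ⊆ star' Ω
  inv : ∀ t z, rot t z ∈ K ↔ z ∈ K
  bf : ∃ B : ℝ, ∀ z ∈ K, ‖f z‖ ≤ B
  bm : ∀ δ : Fin n → ℤ, ∃ B : ℝ, ∀ z ∈ K, ‖mono δ z‖ ≤ B

lemma memLp_ind {Ω : TopologicalSpace.Opens (Fin n → ℂ)} [IsFiniteMeasure (vol Ω)]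
    {K : Set (Fin n → ℂ)} (hK : MeasurableSet K) (hKΩ : K ⊆ Ω) {u : (Fin n → ℂ) → ℂ}
    (hm : AEStronglyMeasurable u (volume.restrict K)) (hb : ∃ B : ℝ, ∀ z ∈ K, ‖u z‖ ≤ B) :
    MemLp (K.indicator u) 2 (vol Ω) := by
  obtain ⟨B, hB⟩ := hb
  refine MemLp.of_bound (C := max B 0) ?_ ?_
  · rw [aestronglyMeasurable_indicator_iff hK, Measure.restrict_restrict hK,
      inter_eq_self_of_subset_left hKΩ]
    exact hm
  · refine Eventually.of_forall fun z => ?_
    by_cases h : z ∈ K
    · rw [indicator_of_mem h]; exact (hB z h).trans (le_max_left _ _)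
    · rw [indicator_of_notMem h, norm_zero]; exact le_max_right _ _

section basic

variable {Ω : TopologicalSpace.Opens (Fin n → ℂ)} [IsFiniteMeasure (vol Ω)]
  (hc : IsPreconnected (Ω : Set (Fin n → ℂ))) (hR : IsReinhardt (Ω : Set (Fin n → ℂ)))
  {f : (Fin n → ℂ) → ℂ} (hf : DifferentiableOn ℂ f Ω)
  (hD : Dense {g : bergman Ω | InDom Ω (fun z => conj (f z)) g})
  (T : bergman Ω →L[ℂ] Lp ℂ 2 (vol Ω))
  (hT : ∀ g h, T g = hankel Ω (fun z => conj (f z)) g h)
  {α : Fin n → ℤ} {C : ℂ} (hC : ∀ z ∈ star' (Ω : Set (Fin n → ℂ)), ∫ t : UnitAddTorus (Fin n),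
      f (rot t z) * UnitAddTorus.mFourier (-α) t = C * mono α z)

include hc hR hf hD hT hC in
lemma basic {γ : Fin n → ℤ} (m : bergman Ω) (hm : (m : Lp ℂ 2 (vol Ω)) =ᵐ[vol Ω] mono γ)
    {K : Set (Fin n → ℂ)} (hK : GoodSet (Ω : Set (Fin n → ℂ)) f K) (c : ℂ)
    (u : (Fin n → ℂ) → ℂ) (hu : u = fun z => conj (mono α z) * mono γ z - c * mono (γ - α) z)
    (hperp : (∫ z in K, conj (u z) * mono (γ - α) z = 0) ∨ (¬ ok (Ω : Set (Fin n → ℂ)) (γ - α) ∧ c = 0)) :
    ‖C‖ ^ 2 * ∫ z in K, ‖u z‖ ^ 2 ≤ ‖T m‖ ^ 2 := by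
  have hKΩ : K ⊆ Ω := fun z hz => (hK.sub hz).1
  have hKfin : IsFiniteMeasure (volume.restrict K) := by
    refine ⟨?_⟩
    rw [Measure.restrict_apply_univ]
    have h1 : volume K ≤ (vol Ω) univ := by
      rw [Measure.restrict_apply_univ]; exact measure_mono hKΩ
    exact h1.trans_lt (measure_lt_top _ _)
  have hum : Measurable u := by
    rw [hu]
    have h1 := measurable_mono (n := n) α
    have h2 := measurable_mono (n := n) γ
    have h3 := measurable_mono (n := n) (γ - α)
    exact ((Complex.continuous_conj.measurable.comp h1).mul h2).sub (measurable_const.mul h3)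
  have hub : ∃ B : ℝ, ∀ z ∈ K, ‖u z‖ ≤ B := by
    obtain ⟨B1, h1⟩ := hK.bm α
    obtain ⟨B2, h2⟩ := hK.bm γ
    obtain ⟨B3, h3⟩ := hK.bm (γ - α)
    refine ⟨B1 * B2 + ‖c‖ * B3, fun z hz => ?_⟩
    rw [hu]
    refine (norm_sub_le _ _).trans ?_
    rw [norm_mul, norm_mul, RCLike.norm_conj]
    have e1 := h1 z hz
    have e2 := h2 z hz
    have e3 := h3 z hz
    have := norm_nonneg (mono α z)
    have := norm_nonneg (mono γ z)
    gcongr
    exact this.trans e2 |>.trans' (by positivity) |> fun _ => (norm_nonneg _).trans e1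
  have hfm : AEStronglyMeasurable f (volume.restrict K) :=
    (hf.continuousOn.mono hKΩ).aestronglyMeasurable hK.meas
  have hwt : Wt K (γ - α) u := by
    intro z hz t
    rw [hu]
    simp only [mono_rot, map_mul]
    have h2 : conj (UnitAddTorus.mFourier α t) * UnitAddTorus.mFourier γ t
        = UnitAddTorus.mFourier (γ - α) t := by
      rw [← UnitAddTorus.mFourier_neg, ← UnitAddTorus.mFourier_add]
      congr 2
      ring
    rw [← h2]
    ring
  have hU : MemLp (K.indicator u) 2 (vol Ω) := memLp_ind hK.meas hKΩ hum.aestronglyMeasurable hub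
  have hW : MemLp (K.indicator (fun z => u z * f z)) 2 (vol Ω) := by
    refine memLp_ind hK.meas hKΩ (hum.aestronglyMeasurable.mul hfm) ?_
    obtain ⟨B1, h1⟩ := hub
    obtain ⟨B2, h2⟩ := hK.bf
    refine ⟨B1 * B2, fun z hz => ?_⟩
    rw [norm_mul]
    have e1 := h1 z hz
    have e2 := h2 z hz
    have e3 := (norm_nonneg _).trans e1
    gcongr
  have hrestr : (vol Ω).restrict K = volume.restrict K := by
    rw [Measure.restrict_restrict hK.meas, inter_eq_self_of_subset_left hKΩ]
  -- orthogonality to the Bergman space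
  have horth : ∀ v : Lp ℂ 2 (vol Ω), v ∈ bergman Ω → inner ℂ (hU.toLp _) v = 0 := by
    intro v hv
    obtain ⟨gv, hgv, hveq⟩ := hv
    rw [inner_ind hK.meas hKΩ hU]
    have h1 : ∀ᵐ z ∂(volume.restrict K), v z = gv z := by
      rw [← hrestr]; exact ae_restrict_of_ae hveq
    have h2 : ∫ z in K, conj (u z) * v z = ∫ z in K, conj (u z) * gv z := by
      refine integral_congr_ae ?_
      filter_upwards [h1] with z hz
      rw [hz]
    rw [h2]
    obtain ⟨C', hC'⟩ := laurent Ω.isOpen hc hR hgv (γ - α)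
    have hgvL : MemLp gv 2 (volume.restrict K) := by
      have := (Lp.memLp v).ae_eq hveq
      have h3 := this.restrict K
      rwa [hrestr] at h3
    have huL : MemLp (fun z => conj (u z)) 2 (volume.restrict K) := by
      obtain ⟨B, hB⟩ := hub
      refine MemLp.of_bound (C := B) (Complex.continuous_conj.measurable.comp hum).aestronglyMeasurable ?_
      refine (ae_restrict_mem hK.meas).mono fun z hz => ?_
      rw [RCLike.norm_conj]; exact hB z hz
    rw [pairing hK.meas hK.sub hK.inv hwt (huL.integrable_mul hgvL) hC']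
    rcases hperp with h | ⟨h, -⟩
    · rw [h, mul_zero]
    · rw [laurent_zero Ω.isOpen hR hgv h hC', zero_mul]
  -- the functional identity
  have hfun : ∀ g : bergman Ω, inner ℂ (hU.toLp _) (T g) = inner ℂ (hW.toLp _) (g : Lp ℂ 2 (vol Ω)) := by
    have hcont1 : Continuous fun g : bergman Ω => inner ℂ (hU.toLp _ : Lp ℂ 2 (vol Ω)) (T g) :=
      continuous_const.inner T.continuous
    have hcont2 : Continuous fun g : bergman Ω => inner ℂ (hW.toLp _) (g : Lp ℂ 2 (vol Ω)) :=
      continuous_const.inner continuous_subtype_val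
    have := hcont1.ext_on hD hcont2 (fun g hg => by
      have hg' : InDom Ω (fun z => conj (f z)) g := hg
      simp only
      rw [hT g hg', hankel, bergmanProj, inner_sub_right, horth _ (Submodule.starProjection_apply_mem _ _),
        sub_zero, inner_ind hK.meas hKΩ hU, inner_ind hK.meas hKΩ hW]
      refine integral_congr_ae ?_
      have h1 : ∀ᵐ z ∂(volume.restrict K), (hg'.toLp _ : Lp ℂ 2 (vol Ω)) z
          = conj (f z) * (g : Lp ℂ 2 (vol Ω)) z := by
        rw [← hrestr]; exact ae_restrict_of_ae hg'.coeFn_toLp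
      filter_upwards [h1] with z hz
      rw [hz, map_mul]
      ring)
    exact fun g => congrFun this g
  -- evaluation at the monomial
  have hval : inner ℂ (hU.toLp _ : Lp ℂ 2 (vol Ω)) (T m) = conj C * ((∫ z in K, ‖u z‖ ^ 2 : ℝ) : ℂ) := by
    rw [hfun, inner_ind hK.meas hKΩ hW]
    have h1 : ∀ᵐ z ∂(volume.restrict K), (m : Lp ℂ 2 (vol Ω)) z = mono γ z := by
      rw [← hrestr]; exact ae_restrict_of_ae hm
    have h2 : ∫ z in K, conj (u z * f z) * (m : Lp ℂ 2 (vol Ω)) z
        = ∫ z in K, conj (u z * f z) * mono γ z := by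
      refine integral_congr_ae ?_
      filter_upwards [h1] with z hz
      rw [hz]
    have hbint : ∀ F : (Fin n → ℂ) → ℂ, AEStronglyMeasurable F (volume.restrict K) →
        (∃ B : ℝ, ∀ z ∈ K, ‖F z‖ ≤ B) → IntegrableOn F K := by
      rintro F hF ⟨B, hB⟩
      exact Integrable.of_bound hF B ((ae_restrict_mem hK.meas).mono hB)
    obtain ⟨Bu, hBu⟩ := hub
    obtain ⟨Bf, hBf⟩ := hK.bf
    obtain ⟨Bg, hBg⟩ := hK.bm γ
    obtain ⟨Ba, hBa⟩ := hK.bm α
    obtain ⟨Bb, hBb⟩ := hK.bm (γ - α)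
    have hi1 : IntegrableOn (fun z => conj (u z * f z) * mono γ z) K := by
      refine hbint _ ?_ ⟨Bu * Bf * Bg, fun z hz => ?_⟩
      · exact (Complex.continuous_conj.comp_aestronglyMeasurable
          (hum.aestronglyMeasurable.mul hfm)).mul (measurable_mono γ).aestronglyMeasurable
      · rw [norm_mul, RCLike.norm_conj, norm_mul]
        have e1 := hBu z hz
        have e2 := hBf z hz
        have e3 := hBg z hz
        have e4 := (norm_nonneg _).trans e1
        have e5 := (norm_nonneg _).trans e2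
        gcongr
    rw [h2, pairing2 hK.meas hK.sub hK.inv hwt hi1 hC]
    congr 1
    -- decompose
    have h3 : ∀ z, conj (u z) * (conj (mono α z) * mono γ z)
        = conj (u z) * u z + c * (conj (u z) * mono (γ - α) z) := by
      intro z
      rw [hu]
      ring
    have hi2 : IntegrableOn (fun z => conj (u z) * u z) K := by
      refine hbint _ ?_ ⟨Bu * Bu, fun z hz => ?_⟩
      · exact ((Complex.continuous_conj.measurable.comp hum).mul hum).aestronglyMeasurable
      · rw [norm_mul, RCLike.norm_conj]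
        have e1 := hBu z hz
        have e4 := (norm_nonneg _).trans e1
        gcongr
    have hi3 : IntegrableOn (fun z => conj (u z) * mono (γ - α) z) K := by
      refine hbint _ ?_ ⟨Bu * Bb, fun z hz => ?_⟩
      · exact ((Complex.continuous_conj.measurable.comp hum).mul
          (measurable_mono (γ - α))).aestronglyMeasurable
      · rw [norm_mul, RCLike.norm_conj]
        have e1 := hBu z hz
        have e2 := hBb z hz
        have e4 := (norm_nonneg _).trans e1
        gcongr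
    simp_rw [h3]
    rw [integral_add hi2 (hi3.const_mul c), integral_const_mul]
    have h4 : c * ∫ z in K, conj (u z) * mono (γ - α) z = 0 := by
      rcases hperp with h | ⟨-, h⟩
      · rw [h, mul_zero]
      · rw [h, zero_mul]
    rw [h4, add_zero, ← integral_complex_ofReal]
    refine integral_congr_ae (Eventually.of_forall fun z => ?_)
    simp only
    rw [Complex.conj_mul']
    push_cast
    rfl
  -- the norm of U
  have hnorm : ‖(hU.toLp _ : Lp ℂ 2 (vol Ω))‖ ^ 2 = ∫ z in K, ‖u z‖ ^ 2 := by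
    have h1 : ((‖(hU.toLp _ : Lp ℂ 2 (vol Ω))‖ ^ 2 : ℝ) : ℂ)
        = inner ℂ (hU.toLp _ : Lp ℂ 2 (vol Ω)) (hU.toLp _ : Lp ℂ 2 (vol Ω)) := by
      rw [inner_self_eq_norm_sq_to_K]; push_cast; rfl
    rw [inner_ind hK.meas hKΩ hU] at h1
    have h2 : ∫ z in K, conj (u z) * (hU.toLp _ : Lp ℂ 2 (vol Ω)) z
        = ((∫ z in K, ‖u z‖ ^ 2 : ℝ) : ℂ) := by
      rw [← integral_complex_ofReal]
      have h3 : ∀ᵐ z ∂(volume.restrict K), (hU.toLp _ : Lp ℂ 2 (vol Ω)) z = K.indicator u z := by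
        rw [← hrestr]; exact ae_restrict_of_ae hU.coeFn_toLp
      refine integral_congr_ae ?_
      filter_upwards [h3, ae_restrict_mem hK.meas] with z hz hzK
      rw [hz, indicator_of_mem hzK, Complex.conj_mul']
      push_cast
      rfl
    rw [h2] at h1
    exact_mod_cast h1
  set A := ∫ z in K, ‖u z‖ ^ 2 with hA
  have hA0 : 0 ≤ A := integral_nonneg fun z => by positivity
  have hcs : ‖C‖ * A ≤ ‖(hU.toLp _ : Lp ℂ 2 (vol Ω))‖ * ‖T m‖ := by
    have h1 := norm_inner_le_norm (𝕜 := ℂ) (hU.toLp _ : Lp ℂ 2 (vol Ω)) (T m)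
    rw [hval, norm_mul, RCLike.norm_conj, Complex.norm_real, Real.norm_eq_abs, abs_of_nonneg hA0] at h1
    exact h1
  rcases hA0.eq_or_lt with h | h
  · rw [← h, mul_zero]; positivity
  · have h1 : (‖C‖ * A) ^ 2 ≤ (‖(hU.toLp _ : Lp ℂ 2 (vol Ω))‖ * ‖T m‖) ^ 2 :=
      pow_le_pow_left₀ (by positivity) hcs 2
    rw [mul_pow, mul_pow, hnorm] at h1
    have h2 : A * (‖C‖ ^ 2 * A) ≤ A * ‖T m‖ ^ 2 := by linarith [h1, sq A]
    exact le_of_mul_le_mul_left h2 h

end basic

end

end Pool.Agent.U565.HK
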