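import Pool.Agent.U565.HK.Mon

set_option autoImplicit false

open MeasureTheory Topology Filter Set Metric Complex
open scoped ComplexConjugate Real ENNReal NNReal

namespace Pool.Agent.U565.HK

noncomputable section

/-- Normalised Haar measure on the unit circle. -/
local instance : MeasureSpace UnitAddCircle := ⟨AddCircle.haarAddCircle⟩

local instance : Measure.IsAddHaarMeasure (volume : Measure UnitAddCircle) :=
  inferInstanceAs (Measure.IsAddHaarMeasure AddCircle.haarAddCircle)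

local instance : IsProbabilityMeasure (volume : Measure UnitAddCircle) :=
  inferInstanceAs (IsProbabilityMeasure AddCircle.haarAddCircle)

variable {n : ℕ}

lemma ok_add {Ω : Set (Fin n → ℂ)} {γ α : Fin n → ℤ} (h1 : ok Ω γ) (h2 : ok Ω α) : ok Ω (γ + α) :=
  fun j hj => add_nonneg (h1 j hj) (h2 j hj)

lemma mono_zsmul (α : Fin n → ℤ) (j : ℤ) (z : Fin n → ℂ) : mono (j • α) z = (mono α z) ^ j := by
  simp only [mono]
  rw [← Finset.prod_zpow]
  refine Finset.prod_congr rfl fun i _ => ?_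
  rw [Pi.smul_apply, smul_eq_mul, mul_comm, zpow_mul]

/-- lower bound for the norms on an open set where `|z^α|²` is bounded below -/
lemma lower_exp {Ω U : Set (Fin n → ℂ)} (hU : MeasurableSet U) (hUΩ : U ⊆ star' Ω) {α γ : Fin n → ℤ}
    {β : ℝ} (hβ : 0 ≤ β) (k : ℤ) (j : ℕ)
    (hb : ∀ z ∈ U, β ≤ ‖mono (k • α) z‖ ^ 2) :
    ENNReal.ofReal (β ^ j) * NN U γ ≤ NP Ω (γ + ((j : ℤ) * k) • α) := by
  refine le_trans ?_ (NN_le_NP _ _)
  have h1 : NN U (γ + ((j : ℤ) * k) • α) ≤ NN Ω (γ + ((j : ℤ) * k) • α) :=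
    lintegral_mono_set fun z hz => (hUΩ hz).1
  refine le_trans ?_ h1
  unfold NN
  rw [← lintegral_const_mul' _ _ ENNReal.ofReal_ne_top]
  refine setLIntegral_mono' hU fun z hz => ?_
  have h2 : mono (γ + ((j : ℤ) * k) • α) z = mono γ z * (mono (k • α) z) ^ j := by
    rw [mono_add _ _ (hUΩ hz).2]
    congr 1
    rw [mono_zsmul, mono_zsmul, ← zpow_natCast, ← zpow_mul, mul_comm]
  rw [h2, enorm_mul, enorm_pow, mul_pow, mul_comm]
  gcongr
  rw [← pow_mul, mul_comm j 2, pow_mul, ← ofReal_norm, ← ENNReal.ofReal_pow (norm_nonneg _),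
    ← ENNReal.ofReal_pow (by positivity)]
  exact ENNReal.ofReal_le_ofReal (pow_le_pow_left₀ hβ (hb z hz) j)

lemma NN_pos' {U : Set (Fin n → ℂ)} (hU : IsOpen U) (hne : U.Nonempty) (γ : Fin n → ℤ) :
    NN U γ ≠ 0 := NN_pos hU hne γ

/-- nonnegative monomials are in the Bergman space of a bounded set -/
lemma NP_ne_top_of_nonneg {Ω : Set (Fin n → ℂ)} (hb : Bornology.IsBounded Ω) (hΩ : MeasurableSet Ω)
    {γ : Fin n → ℤ} (hγ : ∀ j, 0 ≤ γ j) : NP Ω γ ≠ ⊤ := by
  have hok : ok Ω γ := fun j _ => hγ j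
  unfold NP
  rw [if_pos hok]
  have hok' : ok (univ : Set (Fin n → ℂ)) γ := fun j _ => hγ j
  have hcont : ContinuousOn (mono γ) (closure Ω) :=
    (mono_diffOn hok').continuousOn.mono (subset_univ _)
  obtain ⟨B, hB⟩ := hb.isCompact_closure.exists_bound_of_continuousOn hcont
  rw [NN_real hΩ hb.measure_lt_top.ne ⟨B, fun z hz => hB z (subset_closure hz)⟩]
  exact ENNReal.ofReal_ne_top

section main

variable {Ω : TopologicalSpace.Opens (Fin n → ℂ)}

/-- All nonconstant Laurent coefficients vanish. -/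
theorem coef_zero (hn : 2 ≤ n) (hne : (Ω : Set (Fin n → ℂ)).Nonempty)
    (hb : Bornology.IsBounded (Ω : Set (Fin n → ℂ)))
    (hc : IsPreconnected (Ω : Set (Fin n → ℂ))) (hR : IsReinhardt (Ω : Set (Fin n → ℂ)))
    {f : (Fin n → ℂ) → ℂ} (hf : DifferentiableOn ℂ f Ω)
    (hHS : IsHilbertSchmidtHankel Ω (fun z => conj (f z)))
    {α : Fin n → ℤ} (hα : α ≠ 0) {C : ℂ}
    (hC : ∀ z ∈ star' (Ω : Set (Fin n → ℂ)), ∫ t : UnitAddTorus (Fin n),
      f (rot t z) * UnitAddTorus.mFourier (-α) t = C * mono α z) : C = 0 := by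
  by_contra hC0
  obtain ⟨hD, T, hT, ι, b, hsum⟩ := hHS
  have hfinm : IsFiniteMeasure (vol Ω) := ⟨by
    rw [Measure.restrict_apply_univ]; exact hb.measure_lt_top⟩
  have hokα : ok (Ω : Set (Fin n → ℂ)) α := by
    by_contra h
    exact hC0 (laurent_zero Ω.isOpen hR hf h hC)
  have hnt : Nontrivial (Fin n → ℂ) := by
    have : Nonempty (Fin n) := ⟨⟨0, by omega⟩⟩
    infer_instance
  have hcne : (Ω : Set (Fin n → ℂ))ᶜ.Nonempty := by
    rw [nonempty_compl]
    intro h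
    rw [h] at hb
    exact NormedSpace.unbounded_univ ℂ (Fin n → ℂ) hb
  -- indices
  obtain ⟨l, hl⟩ : ∃ l, α l ≠ 0 := Function.ne_iff.1 hα
  obtain ⟨i, hi⟩ : ∃ i : Fin n, i ≠ l := by
    have : Nontrivial (Fin n) := Fin.nontrivial_iff_two_le.2 hn
    exact exists_ne l
  -- two points with different values of |z^α|²
  obtain ⟨p₀, hp₀⟩ := hne
  obtain ⟨p, hp, -, -⟩ := exists_near Ω.isOpen hp₀ one_pos
  have hstar := isOpen_star Ω.isOpen
  obtain ⟨q, hq, hpq⟩ : ∃ q ∈ star' (Ω : Set (Fin n → ℂ)), ‖mono α p‖ ≠ ‖mono α q‖ := by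
    have hcont : Continuous (fun s : ℝ => Function.update p l (((1 + s : ℝ) : ℂ) * p l)) :=
      continuous_const.update l ((Complex.continuous_ofReal.comp (by fun_prop)).mul continuous_const)
    have h0 : (fun s : ℝ => Function.update p l (((1 + s : ℝ) : ℂ) * p l)) 0 ∈ star' (Ω : Set (Fin n → ℂ)) := by
      simp only [add_zero, Complex.ofReal_one, one_mul, Function.update_eq_self]
      exact hp
    have h1 := hcont.continuousAt.preimage_mem_nhds (hstar.mem_nhds h0)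
    obtain ⟨ε, hε, hsub⟩ := Metric.mem_nhds_iff.1 h1
    have h2 : ε / 2 ∈ ball (0 : ℝ) ε := by
      rw [mem_ball, dist_zero_right, Real.norm_eq_abs, abs_of_pos (by positivity)]; linarith
    refine ⟨_, hsub h2, ?_⟩
    have h3 : ‖mono α (Function.update p l (((1 + ε / 2 : ℝ) : ℂ) * p l))‖
        = (1 + ε / 2) ^ (α l) * ‖mono α p‖ := by
      simp only [mono, norm_prod]
      rw [← Finset.mul_prod_erase _ _ (Finset.mem_univ l),
        ← Finset.mul_prod_erase Finset.univ (fun j => ‖p j ^ α j‖) (Finset.mem_univ l), ← mul_assoc]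
      congr 1
      · rw [Function.update_self, norm_zpow, norm_mul, Complex.norm_real, Real.norm_eq_abs,
          abs_of_pos (by positivity), mul_zpow, norm_zpow]
      · refine Finset.prod_congr rfl fun j hj => ?_
        rw [Function.update_of_ne (Finset.ne_of_mem_erase hj)]
    rw [h3]
    intro h4
    have h5 : 0 < ‖mono α p‖ := norm_pos_iff.2 (mono_ne_zero α hp.2)
    have h6 : (1 + ε / 2) ^ (α l) = 1 := by
      have h7 : (1 + ε / 2) ^ (α l) * ‖mono α p‖ = 1 * ‖mono α p‖ := by rw [one_mul]; exact h4.symm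
      exact mul_right_cancel₀ h5.ne' h7
    have h8 : (1 + ε / 2) ≠ 1 := by linarith
    exact hl ((zpow_eq_one_iff_right₀ (by positivity) h8).1 h6)
  obtain ⟨P, Q, hP, hQ, hPQ⟩ : ∃ P Q : Fin n → ℂ, P ∈ star' (Ω : Set (Fin n → ℂ)) ∧
      Q ∈ star' (Ω : Set (Fin n → ℂ)) ∧ ‖mono α P‖ ^ 2 < ‖mono α Q‖ ^ 2 := by
    rcases lt_or_gt_of_ne hpq with h | h
    · exact ⟨p, q, hp, hq, pow_lt_pow_left₀ h (norm_nonneg _) two_ne_zero⟩
    · exact ⟨q, p, hq, hp, pow_lt_pow_left₀ h (norm_nonneg _) two_ne_zero⟩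
  have hτ : 0 < ‖mono α P‖ ^ 2 := by
    have := norm_pos_iff.2 (mono_ne_zero α hP.2)
    positivity
  set τ := ‖mono α P‖ ^ 2 with hτdef
  set τ' := ‖mono α Q‖ ^ 2 with hτ'def
  set a₁ := τ + (τ' - τ) / 5 with ha₁
  set a := τ + 2 * (τ' - τ) / 5 with ha
  set bb := τ + 3 * (τ' - τ) / 5 with hbb
  set b₁ := τ + 4 * (τ' - τ) / 5 with hb₁
  have ha₁0 : 0 < a₁ := by rw [ha₁]; linarith
  have hcontα : ContinuousOn (fun z => ‖mono α z‖ ^ 2) (star' (Ω : Set (Fin n → ℂ))) :=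
    ((mono_diffOn_star _ α).continuousOn.norm).pow 2
  set U : Set (Fin n → ℂ) := star' (Ω : Set (Fin n → ℂ)) ∩ (fun z => ‖mono α z‖ ^ 2) ⁻¹' (Ioi b₁) with hU
  set V : Set (Fin n → ℂ) := star' (Ω : Set (Fin n → ℂ)) ∩ (fun z => ‖mono α z‖ ^ 2) ⁻¹' (Iio a₁) with hV
  have hUo : IsOpen U := hcontα.isOpen_inter_preimage hstar isOpen_Ioi
  have hVo : IsOpen V := hcontα.isOpen_inter_preimage hstar isOpen_Iio
  have hUne : U.Nonempty := ⟨Q, hQ, by rw [mem_preimage, mem_Ioi, ← hτ'def]; linarith⟩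
  have hVne : V.Nonempty := ⟨P, hP, by rw [mem_preimage, mem_Iio, ← hτdef]; linarith⟩
  set κ := ‖C‖ ^ 2 with hκ
  have hκ0 : 0 < κ := by have := norm_pos_iff.2 hC0; positivity
  -- the main inequality
  have hE : ∀ γ : Fin n → ℤ, NP (Ω : Set (Fin n → ℂ)) γ ≠ ⊤ →
      ENNReal.ofReal κ * (NP (Ω : Set (Fin n → ℂ)) (γ + α) / NP (Ω : Set (Fin n → ℂ)) γ) ≤
        ENNReal.ofReal (‖T (eE Ω γ)‖ ^ 2) +
        ENNReal.ofReal κ * (NP (Ω : Set (Fin n → ℂ)) γ / NP (Ω : Set (Fin n → ℂ)) (γ - α)) := by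
    intro γ hγ
    obtain ⟨hok, hNN, hEq⟩ := NP_ne_top hγ
    have h1 := est_lim hc hR hf hD T hT hC hb hcne (mE Ω γ) (mE_ae hγ) hNN
    have h2 : NP (Ω : Set (Fin n → ℂ)) (γ + α) = NN (Ω : Set (Fin n → ℂ)) (γ + α) := by
      unfold NP; rw [if_pos (ok_add hok hokα)]
    rw [h2, ← mul_div_assoc]
    have hD0 : NP (Ω : Set (Fin n → ℂ)) γ ≠ 0 := NP_ne_zero Ω.isOpen ⟨p₀, hp₀⟩ γ
    refine (ENNReal.div_le_div_right h1 _).trans (le_of_eq ?_)
    rw [ENNReal.add_div]
    congr 1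
    · rw [T_eE, ENNReal.ofReal_div_of_pos (by have := mE_norm_pos ⟨p₀, hp₀⟩ hγ; positivity), ← mE_norm hγ]
    · rw [← hEq, mul_div_assoc]
      congr 1
      rw [div_eq_mul_inv, div_eq_mul_inv, div_eq_mul_inv, sq]
      calc NP (Ω : Set (Fin n → ℂ)) γ * NP (Ω : Set (Fin n → ℂ)) γ * (NP (Ω : Set (Fin n → ℂ)) (γ - α))⁻¹ *
            (NP (Ω : Set (Fin n → ℂ)) γ)⁻¹ = NP (Ω : Set (Fin n → ℂ)) γ * (NP (Ω : Set (Fin n → ℂ)) (γ - α))⁻¹ *
            (NP (Ω : Set (Fin n → ℂ)) γ * (NP (Ω : Set (Fin n → ℂ)) γ)⁻¹) := by ring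
        _ = _ := by rw [ENNReal.mul_inv_cancel hD0 hγ, mul_one]
  -- the chains
  set g : ℕ → (Fin n → ℤ) := fun k => (k : ℤ) • Pi.single i 1 with hg
  have hgtop : ∀ k, NP (Ω : Set (Fin n → ℂ)) (g k) ≠ ⊤ := by
    intro k
    refine NP_ne_top_of_nonneg hb Ω.isOpen.measurableSet fun j => ?_
    rw [hg]
    simp only [Pi.smul_apply, smul_eq_mul]
    refine mul_nonneg (Nat.cast_nonneg k) ?_
    by_cases hj : j = i
    · subst hj; simp
    · rw [Pi.single_eq_of_ne hj]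
  have hchain : ∀ k : ℕ, ∃ F : Finset ℤ, (∀ j ∈ F, NP (Ω : Set (Fin n → ℂ)) (g k + j • α) ≠ ⊤) ∧
      κ * (bb - a) ≤ ∑ j ∈ F, ‖T (eE Ω (g k + j • α))‖ ^ 2 := by
    intro k
    have hUfin : NN U (g k) ≠ ⊤ := by
      have h1 : NN U (g k) ≤ NP (Ω : Set (Fin n → ℂ)) (g k) :=
        (lintegral_mono_set fun z hz => hz.1.1).trans (NN_le_NP _ _)
      exact ne_top_of_le_ne_top (hgtop k) h1
    have hVfin : NN V (g k) ≠ ⊤ := by
      have h1 : NN V (g k) ≤ NP (Ω : Set (Fin n → ℂ)) (g k) :=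
        (lintegral_mono_set fun z hz => hz.1.1).trans (NN_le_NP _ _)
      exact ne_top_of_le_ne_top (hgtop k) h1
    have hUp : 0 < (NN U (g k)).toReal := ENNReal.toReal_pos (NN_pos hUo hUne _) hUfin
    have hVp : 0 < (NN V (g k)).toReal := ENNReal.toReal_pos (NN_pos hVo hVne _) hVfin
    set c₁ := min (NN U (g k)).toReal (NN V (g k)).toReal with hc₁
    have hc₁0 : 0 < c₁ := lt_min hUp hVp
    have hb₁0 : 0 < b₁ := by rw [hb₁]; linarith
    refine chain (fun j => NP (Ω : Set (Fin n → ℂ)) (g k + j • α))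
      (fun j => ‖T (eE Ω (g k + j • α))‖ ^ 2) κ a bb c₁ a₁ b₁ hκ0 ha₁0 (by rw [ha₁, ha]; linarith)
      (by rw [hb₁, hbb]; linarith) (by rw [ha, hbb]; linarith) hc₁0 (by simpa using hgtop k)
      (fun j => NP_ne_zero Ω.isOpen ⟨p₀, hp₀⟩ _) (fun j => by positivity) ?_ ?_ ?_
    · intro j hj
      have h1 := hE _ hj
      have h2 : g k + j • α + α = g k + (j + 1) • α := by rw [add_smul, one_smul, add_assoc]
      have h3 : g k + j • α - α = g k + (j - 1) • α := by rw [sub_smul, one_smul, add_sub_assoc]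
      rw [h2, h3] at h1
      exact h1
    · intro j
      have h1 := lower_exp (Ω := (Ω : Set (Fin n → ℂ))) hUo.measurableSet (fun z hz => hz.1)
        (α := α) (γ := g k) hb₁0.le 1 j (fun z hz => by rw [one_smul]; exact (le_of_lt hz.2))
      rw [mul_one] at h1
      refine le_trans ?_ h1
      rw [mul_comm, ENNReal.ofReal_mul (by positivity)]
      gcongr
      exact ENNReal.ofReal_le_of_le_toReal (min_le_left _ _)
    · intro j
      have h1 := lower_exp (Ω := (Ω : Set (Fin n → ℂ))) hVo.measurableSet (fun z hz => hz.1)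
        (α := α) (γ := g k) (inv_pos.2 ha₁0).le (-1) j (fun z hz => by
          rw [mono_zsmul, zpow_neg_one, norm_inv, inv_pow]
          have h2 : 0 < ‖mono α z‖ ^ 2 := by
            have := norm_pos_iff.2 (mono_ne_zero α hz.1.2)
            positivity
          have h3 : ‖mono α z‖ ^ 2 ≤ a₁ := le_of_lt hz.2
          exact inv_anti₀ h2 h3)
      rw [mul_neg_one] at h1
      refine le_trans ?_ h1
      rw [mul_comm, ENNReal.ofReal_mul (by positivity)]
      gcongr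
      exact ENNReal.ofReal_le_of_le_toReal (min_le_right _ _)
  choose F hF1 hF2 using hchain
  -- the orthonormal family indexed by pairs
  set φ : ℕ × ℤ → (Fin n → ℤ) := fun p => g p.1 + p.2 • α with hφ
  have hφinj : Function.Injective φ := by
    rintro ⟨k, j⟩ ⟨k', j'⟩ h
    simp only [hφ, hg] at h
    have h1 := congrFun h l
    simp only [Pi.add_apply, Pi.smul_apply, smul_eq_mul, Pi.single_eq_of_ne hi.symm, mul_zero,
      zero_add] at h1
    have h2 : j = j' := mul_right_cancel₀ hl h1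
    subst h2
    have h3 := congrFun h i
    simp only [Pi.add_apply, Pi.smul_apply, smul_eq_mul, Pi.single_eq_same, mul_one,
      add_left_inj, Nat.cast_inj] at h3
    rw [h3]
  have honF := eE_orthonormal hR ⟨p₀, hp₀⟩
    (fun p : {p : ℕ × ℤ // NP (Ω : Set (Fin n → ℂ)) (φ p) ≠ ⊤} => φ p)
    (fun p p' h => Subtype.ext (hφinj h)) (fun p => p.2)
  have hbound : ∀ M : ℕ, (M : ℝ) * (κ * (bb - a)) ≤ ∑' i, ‖T (b i)‖ ^ 2 := by
    intro M
    classical
    set s : Finset (ℕ × ℤ) := (Finset.range M).biUnion fun k => (F k).image fun j => (k, j) with hs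
    have hs1 : ∀ p ∈ s, NP (Ω : Set (Fin n → ℂ)) (φ p) ≠ ⊤ := by
      intro p hp
      rw [hs, Finset.mem_biUnion] at hp
      obtain ⟨k, -, hk⟩ := hp
      rw [Finset.mem_image] at hk
      obtain ⟨j, hj, rfl⟩ := hk
      exact hF1 k j hj
    have h1 := hs_le T b hsum _ honF (s.subtype _)
    rw [Finset.sum_subtype_of_mem (fun p => ‖T (eE Ω (φ p))‖ ^ 2) hs1] at h1
    refine le_trans ?_ h1
    rw [hs, Finset.sum_biUnion]
    · calc (M : ℝ) * (κ * (bb - a)) = ∑ k ∈ Finset.range M, κ * (bb - a) := by simp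
        _ ≤ ∑ k ∈ Finset.range M, ∑ p ∈ (F k).image fun j => (k, j), ‖T (eE Ω (φ p))‖ ^ 2 := by
            refine Finset.sum_le_sum fun k _ => ?_
            rw [Finset.sum_image (fun j _ j' _ h => (Prod.mk.inj h).2)]
            exact hF2 k
    · intro k _ k' _ hkk
      rw [Function.onFun, Finset.disjoint_left]
      rintro ⟨k₁, j₁⟩ h2 h3
      rw [Finset.mem_image] at h2 h3
      obtain ⟨j, -, h4⟩ := h2
      obtain ⟨j', -, h5⟩ := h3
      exact hkk ((Prod.mk.inj h4).1.trans (Prod.mk.inj h5).1.symm)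
  have hpos : 0 < κ * (bb - a) := mul_pos hκ0 (by rw [ha, hbb]; linarith)
  obtain ⟨M, hM⟩ := exists_nat_gt ((∑' i, ‖T (b i)‖ ^ 2) / (κ * (bb - a)))
  rw [div_lt_iff₀ hpos] at hM
  exact absurd (hbound M) (not_le.2 hM)

end main

end

end Pool.Agent.U565.HK
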