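import Mathlib

set_option autoImplicit false

open MeasureTheory Topology Filter Set Metric Complex
open scoped ComplexConjugate Real ENNReal NNReal

namespace Pool.Agent.U565.HK

noncomputable section

variable {H K : Type*} [NormedAddCommGroup H] [InnerProductSpace ℂ H] [CompleteSpace H]
  [NormedAddCommGroup K] [InnerProductSpace ℂ K] [CompleteSpace K]

lemma parseval_enn {ι : Type*} (b : HilbertBasis ι ℂ H) (x : H) :
    ENNReal.ofReal (‖x‖ ^ 2) = ∑' i, ENNReal.ofReal (‖inner ℂ (b i) x‖ ^ 2) := by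
  have h1 := b.hasSum_inner_mul_inner x x
  have h2 : ∀ i, inner ℂ x (b i) * inner ℂ (b i) x = ((‖inner ℂ (b i) x‖ ^ 2 : ℝ) : ℂ) := by
    intro i
    rw [← inner_conj_symm x (b i)]
    rw [Complex.conj_mul']
    push_cast
    rfl
  simp_rw [h2] at h1
  rw [inner_self_eq_norm_sq_to_K] at h1
  have h3 : HasSum (fun i => ‖inner ℂ (b i) x‖ ^ 2) (‖x‖ ^ 2) := by
    have := Complex.hasSum_re h1
    simpa [← Complex.ofReal_pow] using this
  rw [← h3.tsum_eq, ENNReal.ofReal_tsum_of_nonneg (fun i => by positivity) h3.summable]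

/-- The Hilbert-Schmidt norm dominates the sum over any finite orthonormal family. -/
lemma hs_le {ι κ : Type*} (T : H →L[ℂ] K) (b : HilbertBasis ι ℂ H)
    (hs : Summable fun i => ‖T (b i)‖ ^ 2) (e : κ → H) (he : Orthonormal ℂ e) (s : Finset κ) :
    ∑ k ∈ s, ‖T (e k)‖ ^ 2 ≤ ∑' i, ‖T (b i)‖ ^ 2 := by
  obtain ⟨w, c, hc⟩ := exists_hilbertBasis ℂ K
  have key : ∑ k ∈ s, ENNReal.ofReal (‖T (e k)‖ ^ 2) ≤ ∑' i, ENNReal.ofReal (‖T (b i)‖ ^ 2) := by
    calc ∑ k ∈ s, ENNReal.ofReal (‖T (e k)‖ ^ 2)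
        = ∑ k ∈ s, ∑' j, ENNReal.ofReal (‖inner ℂ (c j) (T (e k))‖ ^ 2) := by
          simp_rw [parseval_enn c]
      _ = ∑' j, ∑ k ∈ s, ENNReal.ofReal (‖inner ℂ (c j) (T (e k))‖ ^ 2) := by
          rw [Summable.tsum_finsetSum (fun _ _ => ENNReal.summable)]
      _ ≤ ∑' j, ENNReal.ofReal (‖(ContinuousLinearMap.adjoint T) (c j)‖ ^ 2) := by
          refine ENNReal.tsum_le_tsum fun j => ?_
          rw [← ENNReal.ofReal_sum_of_nonneg (fun _ _ => by positivity)]
          apply ENNReal.ofReal_le_ofReal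
          have h1 := he.sum_inner_products_le ((ContinuousLinearMap.adjoint T) (c j)) (s := s)
          refine le_trans (le_of_eq ?_) h1
          refine Finset.sum_congr rfl fun k _ => ?_
          rw [ContinuousLinearMap.adjoint_inner_right, ← inner_conj_symm, RCLike.norm_conj]
      _ = ∑' j, ∑' i, ENNReal.ofReal (‖inner ℂ (b i) ((ContinuousLinearMap.adjoint T) (c j))‖ ^ 2) := by
          simp_rw [← parseval_enn b]
      _ = ∑' i, ∑' j, ENNReal.ofReal (‖inner ℂ (b i) ((ContinuousLinearMap.adjoint T) (c j))‖ ^ 2) :=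
          ENNReal.tsum_comm
      _ = ∑' i, ENNReal.ofReal (‖T (b i)‖ ^ 2) := by
          refine tsum_congr fun i => ?_
          rw [parseval_enn c (T (b i))]
          refine tsum_congr fun j => ?_
          rw [ContinuousLinearMap.adjoint_inner_right, ← inner_conj_symm, RCLike.norm_conj]
  rw [← ENNReal.ofReal_sum_of_nonneg (fun _ _ => by positivity),
    ← ENNReal.ofReal_tsum_of_nonneg (fun i => by positivity) hs] at key
  exact (ENNReal.ofReal_le_ofReal_iff (tsum_nonneg fun i => by positivity)).1 key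

/-- Discrete chain lemma. -/
lemma chain (x : ℤ → ℝ≥0∞) (y : ℤ → ℝ) (κ a b c₁ a₁ b₁ : ℝ) (hκ : 0 < κ) (ha₁ : 0 < a₁)
    (haa : a₁ < a) (hbb : b < b₁) (hab : a < b) (hc₁ : 0 < c₁)
    (hx0 : x 0 ≠ ⊤) (hpos : ∀ j, x j ≠ 0) (hy : ∀ j, 0 ≤ y j)
    (hE : ∀ j, x j ≠ ⊤ → ENNReal.ofReal κ * (x (j + 1) / x j) ≤
      ENNReal.ofReal (y j) + ENNReal.ofReal κ * (x j / x (j - 1)))
    (hU : ∀ j : ℕ, ENNReal.ofReal (c₁ * b₁ ^ j) ≤ x j)
    (hV : ∀ j : ℕ, ENNReal.ofReal (c₁ * (a₁⁻¹) ^ j) ≤ x (-(j : ℤ))) :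
    ∃ F : Finset ℤ, (∀ j ∈ F, x j ≠ ⊤) ∧ κ * (b - a) ≤ ∑ j ∈ F, y j := by
  have ha : 0 < a := ha₁.trans haa
  have hb : 0 < b := ha.trans hab
  -- finiteness to the right
  have hfin : ∀ j₀ : ℤ, x j₀ ≠ ⊤ → ∀ k : ℕ, x (j₀ + k) ≠ ⊤ := by
    intro j₀ h0 k
    induction k with
    | zero => simpa using h0
    | succ k ih =>
      have h1 := hE (j₀ + k) ih
      intro htop
      rw [Nat.cast_succ, ← add_assoc] at htop
      rw [htop, ENNReal.top_div_of_ne_top ih, ENNReal.mul_top (by simpa using hκ)] at h1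
      have h2 : x (j₀ + k) / x (j₀ + k - 1) ≠ ⊤ := ENNReal.div_ne_top ih (hpos _)
      have h3 : ENNReal.ofReal (y (j₀ + k)) + ENNReal.ofReal κ * (x (j₀ + k) / x (j₀ + k - 1)) ≠ ⊤ :=
        ENNReal.add_ne_top.2 ⟨ENNReal.ofReal_ne_top, ENNReal.mul_ne_top ENNReal.ofReal_ne_top h2⟩
      exact h3 (top_le_iff.1 h1)
  -- upper index
  obtain ⟨J, hJ⟩ : ∃ J : ℕ, ENNReal.ofReal b ≤ x (J + 1) / x J := by
    by_contra hcon
    push Not at hcon
    have hfin0 : ∀ k : ℕ, x (k : ℤ) ≠ ⊤ := fun k => by simpa using hfin 0 hx0 k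
    have h1 : ∀ k : ℕ, x (k : ℤ) ≤ ENNReal.ofReal (b ^ k) * x 0 := by
      intro k
      induction k with
      | zero => simp
      | succ k ih =>
        have h2 := (hcon k).le
        rw [ENNReal.div_le_iff (hpos _) (hfin0 k)] at h2
        rw [Nat.cast_succ]
        refine h2.trans ?_
        rw [pow_succ, mul_comm (b ^ k) b, ENNReal.ofReal_mul hb.le, mul_assoc]
        gcongr
    have h2 : ∀ k : ℕ, c₁ * b₁ ^ k ≤ b ^ k * (x 0).toReal := by
      intro k
      have h3 := (hU k).trans (h1 k)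
      rw [← ENNReal.ofReal_toReal hx0, ← ENNReal.ofReal_mul (by positivity)] at h3
      exact (ENNReal.ofReal_le_ofReal_iff (by positivity)).1 h3
    have h4 : ∀ k : ℕ, (b₁ / b) ^ k ≤ (x 0).toReal / c₁ := by
      intro k
      rw [div_pow, div_le_div_iff₀ (by positivity) hc₁]
      linarith [h2 k]
    have h5 : 1 < b₁ / b := by rwa [one_lt_div hb]
    obtain ⟨k, hk⟩ := pow_unbounded_of_one_lt ((x 0).toReal / c₁) h5
    exact absurd (h4 k) (not_le.2 hk)
  -- lower index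
  obtain ⟨J', hJ'1, hJ'2⟩ : ∃ J' : ℕ, x (-(J' : ℤ)) ≠ ⊤ ∧
      x (-(J' : ℤ)) / x (-(J' : ℤ) - 1) ≤ ENNReal.ofReal a := by
    by_contra hcon
    push Not at hcon
    have h1 : ∀ k : ℕ, x (-(k : ℤ)) ≠ ⊤ ∧ ENNReal.ofReal (a ^ k) * x (-(k : ℤ)) ≤ x 0 := by
      intro k
      induction k with
      | zero => simpa using hx0
      | succ k ih =>
        have h2 := (hcon k ih.1).le
        have h3 : x (-(k : ℤ) - 1) ≠ ⊤ := by
          intro htop
          rw [htop, ENNReal.div_top] at h2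
          have := le_zero_iff.1 h2
          rw [ENNReal.ofReal_eq_zero] at this
          linarith
        have h4 : (-((k + 1 : ℕ) : ℤ)) = -(k : ℤ) - 1 := by push_cast; ring
        rw [h4]
        refine ⟨h3, ?_⟩
        rw [ENNReal.le_div_iff_mul_le (Or.inl (hpos _)) (Or.inl h3)] at h2
        refine le_trans ?_ ih.2
        rw [pow_succ, ENNReal.ofReal_mul (by positivity), mul_assoc]
        gcongr
    have h2 : ∀ k : ℕ, a ^ k * (c₁ * (a₁⁻¹) ^ k) ≤ (x 0).toReal := by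
      intro k
      have h3 := (mul_le_mul_right (hV k) (ENNReal.ofReal (a ^ k))).trans (h1 k).2
      rw [← ENNReal.ofReal_toReal hx0, ← ENNReal.ofReal_mul (by positivity)] at h3
      exact (ENNReal.ofReal_le_ofReal_iff (by positivity)).1 h3
    have h4 : ∀ k : ℕ, (a / a₁) ^ k ≤ (x 0).toReal / c₁ := by
      intro k
      rw [le_div_iff₀ hc₁, div_eq_mul_inv, mul_pow]
      linarith [h2 k]
    have h5 : 1 < a / a₁ := by rwa [one_lt_div ha₁]
    obtain ⟨k, hk⟩ := pow_unbounded_of_one_lt ((x 0).toReal / c₁) h5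
    exact absurd (h4 k) (not_le.2 hk)
  -- the telescoping sum
  set j₀ : ℤ := -(J' : ℤ) with hj₀
  have htel : ∀ k : ℕ, ENNReal.ofReal κ * (x (j₀ + k + 1) / x (j₀ + k)) ≤
      ENNReal.ofReal (∑ i ∈ Finset.range (k + 1), y (j₀ + i)) + ENNReal.ofReal κ * ENNReal.ofReal a := by
    intro k
    induction k with
    | zero =>
      have h1 := hE j₀ hJ'1
      simp only [Nat.cast_zero, add_zero, zero_add, Finset.range_one, Finset.sum_singleton]
      refine h1.trans ?_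
      gcongr
    | succ k ih =>
      have h1 := hE (j₀ + (k + 1 : ℕ)) (hfin j₀ hJ'1 _)
      refine h1.trans ?_
      have h2 : j₀ + ((k + 1 : ℕ) : ℤ) - 1 = j₀ + k := by push_cast; ring
      have h3 : j₀ + ((k + 1 : ℕ) : ℤ) = j₀ + k + 1 := by push_cast; ring
      rw [h2, Finset.sum_range_succ, ENNReal.ofReal_add (Finset.sum_nonneg fun i _ => hy _) (hy _)]
      rw [h3] at *
      calc ENNReal.ofReal (y (j₀ + k + 1)) + ENNReal.ofReal κ * (x (j₀ + k + 1) / x (j₀ + k))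
          ≤ ENNReal.ofReal (y (j₀ + k + 1)) + (ENNReal.ofReal (∑ i ∈ Finset.range (k + 1), y (j₀ + i))
            + ENNReal.ofReal κ * ENNReal.ofReal a) := by gcongr
        _ = _ := by ring
  have h1 := htel (J' + J)
  have h2 : j₀ + ((J' + J : ℕ) : ℤ) = J := by rw [hj₀]; push_cast; ring
  rw [h2] at h1
  have h3 : ENNReal.ofReal κ * ENNReal.ofReal b ≤ _ := (mul_le_mul_right hJ _).trans h1
  rw [← ENNReal.ofReal_mul hκ.le, ← ENNReal.ofReal_mul hκ.le,
    ← ENNReal.ofReal_add (Finset.sum_nonneg fun i _ => hy _) (by positivity),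
    ENNReal.ofReal_le_ofReal_iff (by
      have := Finset.sum_nonneg (s := Finset.range (J' + J + 1)) fun i _ => hy (j₀ + (i : ℤ))
      positivity)] at h3
  refine ⟨(Finset.range (J' + J + 1)).map ⟨fun i : ℕ => j₀ + (i : ℤ), fun i k h => by
    simpa using h⟩, ?_, ?_⟩
  · intro j hj
    rw [Finset.mem_map] at hj
    obtain ⟨i, -, rfl⟩ := hj
    exact hfin j₀ hJ'1 i
  · rw [Finset.sum_map]
    have h4 : κ * (b - a) ≤ ∑ i ∈ Finset.range (J' + J + 1), y (j₀ + (i : ℤ)) := by linarith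
    exact h4

end

end Pool.Agent.U565.HK
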