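import Pool.Agent.U565.HK.Const

set_option autoImplicit false

open MeasureTheory Topology Filter Set Metric Complex
open scoped ComplexConjugate Real

namespace Pool.Agent.U565.HK

noncomputable section

/-- Normalised Haar measure on the unit circle. -/
local instance : MeasureSpace UnitAddCircle := ⟨AddCircle.haarAddCircle⟩

local instance : Measure.IsAddHaarMeasure (volume : Measure UnitAddCircle) :=
  inferInstanceAs (Measure.IsAddHaarMeasure AddCircle.haarAddCircle)

local instance : IsProbabilityMeasure (volume : Measure UnitAddCircle) :=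
  inferInstanceAs (IsProbabilityMeasure AddCircle.haarAddCircle)

variable {n : ℕ}

lemma mono_rot (α : Fin n → ℤ) (t : UnitAddTorus (Fin n)) (z : Fin n → ℂ) :
    mono α (rot t z) = UnitAddTorus.mFourier α t * mono α z := by
  simp only [mono, rot, UnitAddTorus.mFourier, ContinuousMap.coe_mk]
  rw [← Finset.prod_mul_distrib]
  refine Finset.prod_congr rfl fun j _ => ?_
  rw [mul_zpow]
  congr 1
  rw [fourier_apply, fourier_apply, one_smul, AddCircle.toCircle_zsmul]
  simp

lemma mono_ne_zero (α : Fin n → ℤ) {z : Fin n → ℂ} (hz : ∀ j, z j ≠ 0) : mono α z ≠ 0 :=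
  Finset.prod_ne_zero_iff.2 fun j _ => zpow_ne_zero _ (hz j)

lemma mono_add (α β : Fin n → ℤ) {z : Fin n → ℂ} (hz : ∀ j, z j ≠ 0) :
    mono (α + β) z = mono α z * mono β z := by
  simp only [mono]
  rw [← Finset.prod_mul_distrib]
  exact Finset.prod_congr rfl fun j _ => zpow_add₀ (hz j) _ _

lemma mono_zero (z : Fin n → ℂ) : mono (0 : Fin n → ℤ) z = 1 := by
  simp [mono]

lemma mono_neg_mul (α : Fin n → ℤ) {z : Fin n → ℂ} (hz : ∀ j, z j ≠ 0) :
    mono (-α) z * mono α z = 1 := by
  rw [← mono_add _ _ hz, neg_add_cancel, mono_zero]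

/-- `z^α` is holomorphic on `Ω`. -/
def ok (Ω : Set (Fin n → ℂ)) (α : Fin n → ℤ) : Prop := ∀ j, (∃ z ∈ Ω, z j = 0) → 0 ≤ α j

lemma mono_diffOn {Ω : Set (Fin n → ℂ)} {α : Fin n → ℤ} (h : ok Ω α) :
    DifferentiableOn ℂ (mono α) Ω := by
  intro z hz
  apply DifferentiableAt.differentiableWithinAt
  have key : ∀ s : Finset (Fin n), DifferentiableAt ℂ (fun z : Fin n → ℂ => ∏ j ∈ s, z j ^ α j) z := by
    intro s
    refine Finset.induction_on s ?_ ?_
    · simp
    · intro i s hi ih
      simp_rw [Finset.prod_insert hi]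
      refine DifferentiableAt.mul ?_ ih
      have h1 : DifferentiableAt ℂ (fun z : Fin n → ℂ => z i) z := differentiableAt_apply i z
      refine h1.zpow ?_
      by_cases hj : z i = 0
      · exact Or.inr (h i ⟨z, hz, hj⟩)
      · exact Or.inl hj
  exact key Finset.univ


lemma mono_diffOn_star (Ω : Set (Fin n → ℂ)) (α : Fin n → ℤ) :
    DifferentiableOn ℂ (mono α) (star' Ω) := by
  apply mono_diffOn
  rintro j ⟨z, hz, hj⟩
  exact absurd hj (hz.2 j)

/-- The torus Fourier coefficients of a holomorphic function on a Reinhardt domain are multiples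
of the corresponding Laurent monomial, with a constant valid on the whole domain. -/
lemma laurent {Ω : Set (Fin n → ℂ)} (hΩ : IsOpen Ω) (hc : IsPreconnected Ω)
    (hR : IsReinhardt Ω) {f : (Fin n → ℂ) → ℂ} (hf : DifferentiableOn ℂ f Ω) (α : Fin n → ℤ) :
    ∃ C : ℂ, ∀ z ∈ star' Ω, ∫ t : UnitAddTorus (Fin n),
      f (rot t z) * UnitAddTorus.mFourier (-α) t = C * mono α z := by
  obtain ⟨C, hC⟩ := avg_const hΩ hc hR (g := fun w => f w * mono (-α) w)
    ((hf.mono fun z hz => hz.1).mul (mono_diffOn_star Ω (-α)))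
  refine ⟨C, fun z hz => ?_⟩
  have h1 := hC z hz
  unfold avg at h1
  simp_rw [mono_rot] at h1
  have h2 : ∀ t : UnitAddTorus (Fin n), f (rot t z) * (UnitAddTorus.mFourier (-α) t * mono (-α) z)
      = (f (rot t z) * UnitAddTorus.mFourier (-α) t) * mono (-α) z := fun t => by ring
  simp_rw [h2] at h1
  rw [integral_mul_const] at h1
  rw [← h1, mul_assoc, mono_neg_mul α hz.2, mul_one]

lemma norm_mFourier (α : Fin n → ℤ) (t : UnitAddTorus (Fin n)) :
    ‖UnitAddTorus.mFourier α t‖ = 1 := by
  simp only [UnitAddTorus.mFourier, fourier_apply, ContinuousMap.coe_mk, norm_prod, Circle.norm_coe,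
      Finset.prod_const_one]

/-- The coefficients of non-holomorphic monomials vanish. -/
lemma laurent_zero {Ω : Set (Fin n → ℂ)} (hΩ : IsOpen Ω) 
    (hR : IsReinhardt Ω) {f : (Fin n → ℂ) → ℂ} (hf : DifferentiableOn ℂ f Ω) {α : Fin n → ℤ}
    (hα : ¬ ok Ω α) {C : ℂ} (hC : ∀ z ∈ star' Ω, ∫ t : UnitAddTorus (Fin n),
      f (rot t z) * UnitAddTorus.mFourier (-α) t = C * mono α z) : C = 0 := by
  unfold ok at hα
  push Not at hα
  obtain ⟨j, ⟨p, hp, hpj⟩, hj⟩ := hα
  obtain ⟨δ, hδ, hsub⟩ := Metric.isOpen_iff.1 hΩ p hp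
  -- a point with only the `j`-th coordinate zero
  obtain ⟨w, hw, hwb, -⟩ := exists_near hΩ hp hδ
  have hw1 : ∀ s : ℝ, 0 ≤ s → s < δ → Function.update w j (s : ℂ) ∈ Ω := by
    intro s hs hsδ
    apply hsub
    rw [mem_ball, dist_pi_lt_iff hδ]
    intro i
    by_cases hi : i = j
    · subst hi
      rw [Function.update_self, hpj, dist_zero_right, Complex.norm_real, Real.norm_eq_abs,
        abs_of_nonneg hs]
      exact hsδ
    · rw [Function.update_of_ne hi]
      rw [mem_ball, dist_pi_lt_iff hδ] at hwb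
      exact hwb i
  set K : Set (Fin n → ℂ) := (fun q : UnitAddTorus (Fin n) × ℝ =>
    rot q.1 (Function.update w j (q.2 : ℂ))) '' (univ ×ˢ Icc 0 (δ / 2)) with hK
  have hKc : IsCompact K := by
    refine (isCompact_univ.prod isCompact_Icc).image ?_
    refine continuous_rot.comp (continuous_fst.prodMk ?_)
    exact continuous_const.update j (Complex.continuous_ofReal.comp continuous_snd)
  have hKS : K ⊆ Ω := by
    rintro _ ⟨⟨t, s⟩, ⟨-, hs⟩, rfl⟩
    exact hR.rot_mem (hw1 s hs.1 (by linarith [hs.2])) t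
  obtain ⟨B, hB⟩ := hKc.exists_bound_of_continuousOn (hf.continuousOn.mono hKS)
  -- the estimate
  set c₀ : ℝ := ∏ i ∈ Finset.univ.erase j, ‖w i‖ ^ (α i) with hc₀
  have hc₀p : 0 < c₀ := Finset.prod_pos fun i _ => zpow_pos (norm_pos_iff.2 (hw.2 i)) _
  have hest : ∀ s : ℝ, 0 < s → s ≤ δ / 2 → ‖C‖ * (s ^ (α j) * c₀) ≤ B := by
    intro s hs hsδ
    have hz : Function.update w j (s : ℂ) ∈ star' Ω := by
      refine ⟨hw1 s hs.le (by linarith), fun i => ?_⟩
      by_cases hi : i = j
      · subst hi
        rw [Function.update_self]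
        exact_mod_cast hs.ne'
      · rw [Function.update_of_ne hi]
        exact hw.2 i
    have h1 : ‖C * mono α (Function.update w j (s : ℂ))‖ ≤ B := by
      rw [← hC _ hz]
      refine (norm_integral_le_of_norm_le_const (C := B) (Eventually.of_forall fun t => ?_)).trans ?_
      · rw [norm_mul, norm_mFourier, mul_one]
        exact hB _ ⟨(t, s), ⟨mem_univ _, hs.le, hsδ⟩, rfl⟩
      · simp
    have h2 : ‖mono α (Function.update w j (s : ℂ))‖ = s ^ (α j) * c₀ := by
      rw [mono, norm_prod, ← Finset.mul_prod_erase _ _ (Finset.mem_univ j)]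
      congr 1
      · rw [Function.update_self, norm_zpow, Complex.norm_real, Real.norm_eq_abs, abs_of_pos hs]
      · refine Finset.prod_congr rfl fun i hi => ?_
        rw [Function.update_of_ne (Finset.ne_of_mem_erase hi), norm_zpow]
    rwa [norm_mul, h2] at h1
  have hest2 : ∀ s : ℝ, 0 < s → s ≤ min (δ / 2) 1 → ‖C‖ * c₀ ≤ B * s := by
    intro s hs hs1
    have h1 := hest s hs (hs1.trans (min_le_left _ _))
    have h2 : s⁻¹ ≤ s ^ (α j) := by
      rw [← zpow_neg_one]
      exact zpow_le_zpow_right_of_le_one₀ hs (hs1.trans (min_le_right _ _)) (by omega)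
    have h3 : ‖C‖ * (s⁻¹ * c₀) ≤ B := by
      refine le_trans ?_ h1
      gcongr
    have h4 : ‖C‖ * (s⁻¹ * c₀) * s ≤ B * s := mul_le_mul_of_nonneg_right h3 hs.le
    have h5 : ‖C‖ * (s⁻¹ * c₀) * s = ‖C‖ * c₀ := by
      field_simp
    linarith
  by_contra hne
  have hpos : 0 < ‖C‖ * c₀ := mul_pos (norm_pos_iff.2 hne) hc₀p
  have hB0 : 0 ≤ B := by
    have h1 := hest2 (min (δ / 2) 1) (by positivity) le_rfl
    have h2 : 0 < min (δ / 2) 1 := by positivity
    by_contra hB'
    push Not at hB'
    nlinarith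
  set s := min (min (δ / 2) 1) (‖C‖ * c₀ / (2 * (B + 1))) with hs
  have hs0 : 0 < s := by positivity
  have h1 := hest2 s hs0 (min_le_left _ _)
  have h2 : s ≤ ‖C‖ * c₀ / (2 * (B + 1)) := min_le_right _ _
  have h3 : B * s ≤ (B + 1) * (‖C‖ * c₀ / (2 * (B + 1))) := by
    have : B * s ≤ (B + 1) * s := by nlinarith
    refine this.trans ?_
    gcongr
  have h4 : (B + 1) * (‖C‖ * c₀ / (2 * (B + 1))) = ‖C‖ * c₀ / 2 := by
    field_simp
  linarith

/-- the rotation by a fixed torus element preserves Lebesgue measure -/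
lemma rot_mp (t : UnitAddTorus (Fin n)) :
    MeasurePreserving (rot t : (Fin n → ℂ) → (Fin n → ℂ)) volume volume := by
  have h : ∀ j, MeasurePreserving (fun z : ℂ => (fourier 1 (t j) : ℂ) * z) volume volume := by
    intro j
    have h1 := (rotation (AddCircle.toCircle (t j))).measurePreserving
    have h2 : (⇑(rotation (AddCircle.toCircle (t j))) : ℂ → ℂ) = fun z : ℂ => (fourier 1 (t j) : ℂ) * z := by
      ext z
      rw [rotation_apply, fourier_apply, one_smul]
    rwa [h2] at h1
  exact volume_preserving_pi h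

/-- Averaging over tori in integrals over Reinhardt sets. -/
lemma integral_avg {K : Set (Fin n → ℂ)} (hK : MeasurableSet K)
    (hKR : ∀ t z, rot t z ∈ K ↔ z ∈ K) {q : (Fin n → ℂ) → ℂ} (hq : IntegrableOn q K) :
    ∫ z in K, q z = ∫ z in K, ∫ t : UnitAddTorus (Fin n), q (rot t z) := by
  have hmp : ∀ t, MeasurePreserving (rot t : (Fin n → ℂ) → (Fin n → ℂ)) (volume.restrict K)
      (volume.restrict K) := by
    intro t
    have h1 := (rot_mp t).restrict_preimage hK
    have h2 : rot t ⁻¹' K = K := by ext z; exact hKR t z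
    rwa [h2] at h1
  have hskew : MeasurePreserving
      (fun p : UnitAddTorus (Fin n) × (Fin n → ℂ) => (p.1, rot p.1 p.2))
      ((volume : Measure (UnitAddTorus (Fin n))).prod (volume.restrict K))
      ((volume : Measure (UnitAddTorus (Fin n))).prod (volume.restrict K)) := by
    refine MeasurePreserving.skew_product (f := id) (MeasurePreserving.id _)
      (g := fun t z => rot t z) continuous_rot.measurable ?_
    exact Eventually.of_forall fun t => (hmp t).map_eq
  have hint : Integrable (fun p : UnitAddTorus (Fin n) × (Fin n → ℂ) => q (rot p.1 p.2))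
      ((volume : Measure (UnitAddTorus (Fin n))).prod (volume.restrict K)) := by
    have h1 : Integrable (fun p : UnitAddTorus (Fin n) × (Fin n → ℂ) => q p.2)
        ((volume : Measure (UnitAddTorus (Fin n))).prod (volume.restrict K)) :=
      hq.comp_snd _
    exact hskew.integrable_comp_of_integrable h1
  have h2 : ∀ t : UnitAddTorus (Fin n), ∫ z in K, q (rot t z) = ∫ z in K, q z := by
    intro t
    have h3 : MeasurableEmbedding (rot t : (Fin n → ℂ) → (Fin n → ℂ)) := by
      have hcont : Continuous (rot t : (Fin n → ℂ) → (Fin n → ℂ)) :=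
        continuous_rot.comp (by fun_prop : Continuous fun z : Fin n → ℂ => (t, z))
      have hinj : Function.Injective (rot t : (Fin n → ℂ) → (Fin n → ℂ)) := by
        intro z w h
        have := congrArg (rot (-t)) h
        rwa [rot_add, rot_add, neg_add_cancel, rot_zero, rot_zero] at this
      exact hcont.measurableEmbedding hinj
    exact (hmp t).integral_comp h3 q
  calc ∫ z in K, q z = ∫ t : UnitAddTorus (Fin n), ∫ z in K, q z := by simp
    _ = ∫ t : UnitAddTorus (Fin n), ∫ z in K, q (rot t z) := by simp_rw [h2]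
    _ = ∫ z in K, ∫ t : UnitAddTorus (Fin n), q (rot t z) := integral_integral_swap hint

end

end Pool.Agent.U565.HK
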