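import Pool.Agent.U565.HK.Est
import Pool.Agent.U565.HK.HS

set_option autoImplicit false

open MeasureTheory Topology Filter Set Metric Complex
open scoped ComplexConjugate Real ENNReal NNReal

namespace Pool.Agent.U565.HK

noncomputable section

/-- Normalised Haar measure on the unit circle. -/
local instance : MeasureSpace UnitAddCircle := ⟨AddCircle.haarAddCircle⟩

local instance : Measure.IsAddHaarMeasure (volume : Measure UnitAddCircle) :=
  inferInstanceAs (Measure.IsAddHaarMeasure AddCircle.haarAddCircle)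

local instance : IsProbabilityMeasure (volume : Measure UnitAddCircle) :=
  inferInstanceAs (IsProbabilityMeasure AddCircle.haarAddCircle)

variable {n : ℕ}

/-- the compact exhaustion -/
def Km (Ω : Set (Fin n → ℂ)) (m : ℕ) : Set (Fin n → ℂ) :=
  {z | (∀ j, 1 / ((m : ℝ) + 1) ≤ ‖z j‖) ∧ 1 / ((m : ℝ) + 1) ≤ infDist z Ωᶜ ∧ z ∈ Ω}

lemma rot_isometry (t : UnitAddTorus (Fin n)) :
    Isometry (rot t : (Fin n → ℂ) → (Fin n → ℂ)) := by
  refine Isometry.of_dist_eq fun z w => ?_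
  rw [dist_eq_norm, dist_eq_norm]
  have h : rot t z - rot t w = rot t (z - w) := by
    ext j; simp only [rot, Pi.sub_apply]; ring
  rw [h]
  refine le_antisymm ?_ ?_
  · rw [pi_norm_le_iff_of_nonneg (norm_nonneg _)]
    intro j; rw [norm_rot]; exact norm_le_pi_norm _ _
  · rw [pi_norm_le_iff_of_nonneg (norm_nonneg _)]
    intro j; rw [← norm_rot t (z - w) j]; exact norm_le_pi_norm _ _

lemma rot_mem_iff {Ω : Set (Fin n → ℂ)} (hR : IsReinhardt Ω) (t : UnitAddTorus (Fin n))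
    (z : Fin n → ℂ) : rot t z ∈ Ω ↔ z ∈ Ω := by
  refine ⟨fun h => ?_, fun h => hR.rot_mem h t⟩
  have := hR.rot_mem h (-t)
  rwa [rot_add, neg_add_cancel, rot_zero] at this

lemma infDist_rot {Ω : Set (Fin n → ℂ)} (hR : IsReinhardt Ω) (t : UnitAddTorus (Fin n))
    (z : Fin n → ℂ) : infDist (rot t z) Ωᶜ = infDist z Ωᶜ := by
  have h1 : rot t '' Ωᶜ = Ωᶜ := by
    ext w
    constructor
    · rintro ⟨v, hv, rfl⟩
      rw [mem_compl_iff, rot_mem_iff hR]; exact hv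
    · intro hw
      refine ⟨rot (-t) w, ?_, ?_⟩
      · rw [mem_compl_iff, rot_mem_iff hR]; exact hw
      · rw [rot_add, add_neg_cancel, rot_zero]
  have h2 := infDist_image (rot_isometry t) (x := z) (t := Ωᶜ)
  rwa [h1] at h2

lemma Km_sub (Ω : Set (Fin n → ℂ)) (m : ℕ) : Km Ω m ⊆ star' Ω := by
  rintro z ⟨h1, -, h3⟩
  refine ⟨h3, fun j hj => ?_⟩
  have := h1 j
  rw [hj, norm_zero] at this
  have h4 : (0 : ℝ) < 1 / ((m : ℝ) + 1) := by positivity
  linarith

lemma Km_isCompact {Ω : Set (Fin n → ℂ)} (hb : Bornology.IsBounded Ω) (m : ℕ) :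
    IsCompact (Km Ω m) := by
  refine isCompact_of_isClosed_isBounded ?_ (hb.subset fun z hz => hz.2.2)
  have h : Km Ω m = {z | (∀ j, 1 / ((m : ℝ) + 1) ≤ ‖z j‖)} ∩ {z | 1 / ((m : ℝ) + 1) ≤ infDist z Ωᶜ} := by
    ext z
    constructor
    · rintro ⟨h1, h2, -⟩; exact ⟨h1, h2⟩
    · rintro ⟨h1, h2⟩
      refine ⟨h1, h2, ?_⟩
      by_contra hz
      have : infDist z Ωᶜ = 0 := infDist_zero_of_mem hz
      have h4 : (0 : ℝ) < 1 / ((m : ℝ) + 1) := by positivity
      simp only [mem_setOf_eq] at h2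
      linarith
  rw [h]
  refine IsClosed.inter ?_ ?_
  · have h5 : {z : Fin n → ℂ | ∀ j, 1 / ((m : ℝ) + 1) ≤ ‖z j‖} =
        ⋂ j, {z | 1 / ((m : ℝ) + 1) ≤ ‖z j‖} := by ext z; simp
    rw [h5]
    exact isClosed_iInter fun j => isClosed_le continuous_const (continuous_apply j).norm
  · exact isClosed_le continuous_const (continuous_infDist_pt _)

lemma Km_good {Ω : Set (Fin n → ℂ)} (hb : Bornology.IsBounded Ω) 
    (hR : IsReinhardt Ω) {f : (Fin n → ℂ) → ℂ} (hf : DifferentiableOn ℂ f Ω) (m : ℕ) :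
    GoodSet Ω f (Km Ω m) := by
  have hc := Km_isCompact hb m
  refine ⟨hc.isClosed.measurableSet, Km_sub Ω m, ?_, ?_, ?_⟩
  · intro t z
    simp only [Km, mem_setOf_eq, norm_rot, infDist_rot hR, rot_mem_iff hR]
  · exact hc.exists_bound_of_continuousOn (hf.continuousOn.mono fun z hz => (Km_sub Ω m hz).1)
  · intro δ
    exact hc.exists_bound_of_continuousOn ((mono_diffOn_star Ω δ).continuousOn.mono (Km_sub Ω m))

lemma Km_mono (Ω : Set (Fin n → ℂ)) : Monotone (Km Ω) := by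
  intro m m' hmm z hz
  have h : 1 / ((m' : ℝ) + 1) ≤ 1 / ((m : ℝ) + 1) := by
    gcongr
  exact ⟨fun j => h.trans (hz.1 j), h.trans hz.2.1, hz.2.2⟩

lemma Km_union {Ω : Set (Fin n → ℂ)} (hΩ : IsOpen Ω) (hne : Ωᶜ.Nonempty) :
    ⋃ m, Km Ω m = star' Ω := by
  ext z
  constructor
  · intro hz
    obtain ⟨m, hm⟩ := mem_iUnion.1 hz
    exact Km_sub Ω m hm
  · intro hz
    have h1 : 0 < infDist z Ωᶜ := by
      have := (hΩ.isClosed_compl.notMem_iff_infDist_pos hne (x := z)).1 (by simpa using hz.1)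
      exact this
    have h2 : ∀ᶠ m : ℕ in atTop, 1 / ((m : ℝ) + 1) ≤ infDist z Ωᶜ :=
      (tendsto_one_div_add_atTop_nhds_zero_nat (𝕜 := ℝ)).eventually_le_const h1
    have h3 : ∀ᶠ m : ℕ in atTop, ∀ j, 1 / ((m : ℝ) + 1) ≤ ‖z j‖ := by
      rw [eventually_all]
      intro j
      exact (tendsto_one_div_add_atTop_nhds_zero_nat (𝕜 := ℝ)).eventually_le_const
        (norm_pos_iff.2 (hz.2 j))
    obtain ⟨m, hm2, hm3⟩ := (h2.and h3).exists
    exact mem_iUnion.2 ⟨m, hm3, hm2, hz.1⟩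

/-- squared `L²` norm of the monomial -/
def NN (Ω : Set (Fin n → ℂ)) (δ : Fin n → ℤ) : ℝ≥0∞ := ∫⁻ z in Ω, ‖mono δ z‖ₑ ^ 2

lemma star_ae (Ω : Set (Fin n → ℂ)) : (star' Ω : Set (Fin n → ℂ)) =ᵐ[volume] Ω := by
  have h1 : star' Ω = Ω \ ⋃ j, {z | z j = 0} := by
    ext z; simp [star']
  rw [h1]
  refine sdiff_null_ae_eq_self ?_
  rw [measure_iUnion_null_iff]
  intro j
  rw [volume_pi]
  exact Measure.pi_hyperplane _ j 0

lemma NN_tendsto {Ω : Set (Fin n → ℂ)} (hΩ : IsOpen Ω) (hne : Ωᶜ.Nonempty) (δ : Fin n → ℤ) :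
    Tendsto (fun m => NN (Km Ω m) δ) atTop (𝓝 (NN Ω δ)) := by
  have h1 : NN Ω δ = ⨆ m, NN (Km Ω m) δ := by
    have h2 : NN Ω δ = NN (star' Ω) δ := by
      unfold NN
      rw [Measure.restrict_congr_set (star_ae Ω)]
    rw [h2]
    unfold NN
    rw [← Km_union hΩ hne]
    exact setLIntegral_iUnion_of_directed _ (Km_mono Ω).directed_le
  rw [h1]
  refine tendsto_atTop_iSup fun m m' hmm => ?_
  exact lintegral_mono_set (Km_mono Ω hmm)

lemma NN_real {K : Set (Fin n → ℂ)} (hK : MeasurableSet K) (hfin : volume K ≠ ⊤) {δ : Fin n → ℤ}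
    (hb : ∃ B : ℝ, ∀ z ∈ K, ‖mono δ z‖ ≤ B) :
    NN K δ = ENNReal.ofReal (∫ z in K, ‖mono δ z‖ ^ 2) := by
  have hKfin : IsFiniteMeasure (volume.restrict K) := ⟨by
    rw [Measure.restrict_apply_univ]; exact hfin.lt_top⟩
  rw [ofReal_integral_eq_lintegral_ofReal]
  · unfold NN
    refine lintegral_congr fun z => ?_
    rw [ENNReal.ofReal_pow (norm_nonneg _), ofReal_norm]
  · obtain ⟨B, hB⟩ := hb
    refine Integrable.of_bound ((measurable_mono δ).norm.pow_const 2).aestronglyMeasurable (B ^ 2) ?_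
    refine (ae_restrict_mem hK).mono fun z hz => ?_
    rw [Real.norm_eq_abs, abs_of_nonneg (by positivity)]
    exact pow_le_pow_left₀ (norm_nonneg _) (hB z hz) 2
  · exact Eventually.of_forall fun z => by positivity

section lim

variable {Ω : TopologicalSpace.Opens (Fin n → ℂ)} [IsFiniteMeasure (vol Ω)]
  (hc : IsPreconnected (Ω : Set (Fin n → ℂ))) (hR : IsReinhardt (Ω : Set (Fin n → ℂ)))
  {f : (Fin n → ℂ) → ℂ} (hf : DifferentiableOn ℂ f Ω)
  (hD : Dense {g : bergman Ω | InDom Ω (fun z => conj (f z)) g})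
  (T : bergman Ω →L[ℂ] Lp ℂ 2 (vol Ω))
  (hT : ∀ g h, T g = hankel Ω (fun z => conj (f z)) g h)
  {α : Fin n → ℤ} {C : ℂ} (hC : ∀ z ∈ star' (Ω : Set (Fin n → ℂ)), ∫ t : UnitAddTorus (Fin n),
      f (rot t z) * UnitAddTorus.mFourier (-α) t = C * mono α z)

include hc hR hf hD hT hC in
lemma est_K {γ : Fin n → ℤ} (m : bergman Ω) (hm : (m : Lp ℂ 2 (vol Ω)) =ᵐ[vol Ω] mono γ)
    {K : Set (Fin n → ℂ)} (hK : GoodSet (Ω : Set (Fin n → ℂ)) f K) :
    (ENNReal.ofReal (‖C‖ ^ 2) * NN K (γ + α) ≤ ENNReal.ofReal (‖T m‖ ^ 2) +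
      ENNReal.ofReal (‖C‖ ^ 2) * (NN K γ ^ 2 / NN K (γ - α))) ∧
    (¬ ok (Ω : Set (Fin n → ℂ)) (γ - α) →
      ENNReal.ofReal (‖C‖ ^ 2) * NN K (γ + α) ≤ ENNReal.ofReal (‖T m‖ ^ 2)) := by
  have hKΩ : K ⊆ Ω := fun z hz => (hK.sub hz).1
  have hfinK : volume K ≠ ⊤ := by
    have h1 : volume K ≤ (vol Ω) univ := by
      rw [Measure.restrict_apply_univ]; exact measure_mono hKΩ
    exact (h1.trans_lt (measure_lt_top _ _)).ne
  have hKfin : IsFiniteMeasure (volume.restrict K) := ⟨by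
    rw [Measure.restrict_apply_univ]; exact hfinK.lt_top⟩
  have hint : ∀ δ, IntegrableOn (fun z => ‖mono δ z‖ ^ 2) K := by
    intro δ
    obtain ⟨B, hB⟩ := hK.bm δ
    refine Integrable.of_bound ((measurable_mono δ).norm.pow_const 2).aestronglyMeasurable (B ^ 2) ?_
    refine (ae_restrict_mem hK.meas).mono fun z hz => ?_
    rw [Real.norm_eq_abs, abs_of_nonneg (by positivity)]
    exact pow_le_pow_left₀ (norm_nonneg _) (hB z hz) 2
  have hrel : ∀ z ∈ K, mono γ z = mono α z * mono (γ - α) z ∧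
      mono (γ + α) z = mono α z * (mono α z * mono (γ - α) z) := by
    intro z hz
    have hz' := (hK.sub hz).2
    have h1 : mono γ z = mono α z * mono (γ - α) z := by
      rw [← mono_add _ _ hz']; congr 1; ring
    refine ⟨h1, ?_⟩
    rw [← h1, ← mono_add _ _ hz']; congr 1; ring
  set P := ∫ z in K, ‖mono (γ + α) z‖ ^ 2 with hP
  set Q := ∫ z in K, ‖mono γ z‖ ^ 2 with hQ
  set R := ∫ z in K, ‖mono (γ - α) z‖ ^ 2 with hRdef
  -- evaluation for real c
  have hu1 : ∀ c : ℝ, ∀ z ∈ K, conj (mono α z) * mono γ z - (c : ℂ) * mono (γ - α) z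
      = ((‖mono α z‖ ^ 2 - c : ℝ) : ℂ) * mono (γ - α) z := by
    intro c z hz
    rw [(hrel z hz).1, ← mul_assoc, Complex.conj_mul']
    push_cast
    ring
  have hA : ∀ c : ℝ, ∫ z in K, ‖conj (mono α z) * mono γ z - (c : ℂ) * mono (γ - α) z‖ ^ 2
      = P - 2 * c * Q + c ^ 2 * R := by
    intro c
    have h1 : ∀ z ∈ K, ‖conj (mono α z) * mono γ z - (c : ℂ) * mono (γ - α) z‖ ^ 2
        = ‖mono (γ + α) z‖ ^ 2 - 2 * c * ‖mono γ z‖ ^ 2 + c ^ 2 * ‖mono (γ - α) z‖ ^ 2 := by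
      intro z hz
      rw [hu1 c z hz, (hrel z hz).2, (hrel z hz).1, norm_mul, Complex.norm_real, Real.norm_eq_abs,
        mul_pow, sq_abs, norm_mul, norm_mul]
      ring
    rw [setIntegral_congr_fun hK.meas h1, integral_add, integral_sub, integral_const_mul,
      integral_const_mul]
    · exact hint _
    · exact (hint _).const_mul _
    · exact (hint _).sub ((hint _).const_mul _)
    · exact (hint _).const_mul _
  have hB : ∀ c : ℝ, ∫ z in K, conj (conj (mono α z) * mono γ z - (c : ℂ) * mono (γ - α) z)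
      * mono (γ - α) z = ((Q - c * R : ℝ) : ℂ) := by
    intro c
    have h1 : ∀ z ∈ K, conj (conj (mono α z) * mono γ z - (c : ℂ) * mono (γ - α) z) * mono (γ - α) z
        = ((‖mono γ z‖ ^ 2 - c * ‖mono (γ - α) z‖ ^ 2 : ℝ) : ℂ) := by
      intro z hz
      rw [hu1 c z hz, map_mul, Complex.conj_ofReal, mul_assoc, Complex.conj_mul', (hrel z hz).1,
        norm_mul]
      push_cast
      ring
    rw [setIntegral_congr_fun hK.meas h1, integral_complex_ofReal, integral_sub (hint _)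
      ((hint _).const_mul _), integral_const_mul]
  have hNP : NN K (γ + α) = ENNReal.ofReal P := NN_real hK.meas hfinK (hK.bm _)
  have hNQ : NN K γ = ENNReal.ofReal Q := NN_real hK.meas hfinK (hK.bm _)
  have hNR : NN K (γ - α) = ENNReal.ofReal R := NN_real hK.meas hfinK (hK.bm _)
  have hP0 : 0 ≤ P := integral_nonneg fun z => by positivity
  have hQ0 : 0 ≤ Q := integral_nonneg fun z => by positivity
  have hR0 : 0 ≤ R := integral_nonneg fun z => by positivity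
  constructor
  · rcases hR0.eq_or_lt with h0 | h0
    · -- K is null
      have h1 : NN K (γ - α) = 0 := by rw [hNR, ← h0, ENNReal.ofReal_zero]
      have h2 : ∀ᵐ z ∂(volume.restrict K), ‖mono (γ - α) z‖ₑ ^ 2 = 0 := by
        unfold NN at h1
        rwa [lintegral_eq_zero_iff ((measurable_mono _).enorm.pow_const 2)] at h1
      have h3 : NN K (γ + α) = 0 := by
        unfold NN
        rw [lintegral_eq_zero_iff ((measurable_mono _).enorm.pow_const 2)]
        filter_upwards [h2, ae_restrict_mem hK.meas] with z hz hzK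
        have h4 : mono (γ - α) z = 0 := by simpa using hz
        exact absurd h4 (mono_ne_zero _ (hK.sub hzK).2)
      rw [h3, mul_zero]
      exact zero_le
    · have h1 := basic hc hR hf hD T hT hC m hm hK ((Q / R : ℝ) : ℂ) _ rfl (Or.inl (by
        rw [hB, div_mul_cancel₀ _ h0.ne', sub_self, Complex.ofReal_zero]))
      rw [hA] at h1
      have h2 : ‖C‖ ^ 2 * P ≤ ‖T m‖ ^ 2 + ‖C‖ ^ 2 * (Q ^ 2 / R) := by
        have h3 : P - 2 * (Q / R) * Q + (Q / R) ^ 2 * R = P - Q ^ 2 / R := by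
          field_simp; ring
        rw [h3] at h1
        linarith
      rw [hNP, hNQ, hNR, ← ENNReal.ofReal_mul (by positivity), ← ENNReal.ofReal_pow hQ0,
        ← ENNReal.ofReal_div_of_pos h0, ← ENNReal.ofReal_mul (by positivity),
        ← ENNReal.ofReal_add (by positivity) (by positivity)]
      exact ENNReal.ofReal_le_ofReal h2
  · intro hnok
    have h1 := basic hc hR hf hD T hT hC m hm hK ((0 : ℝ) : ℂ) _ rfl (Or.inr ⟨hnok, by simp⟩)
    rw [hA] at h1
    have h2 : ‖C‖ ^ 2 * P ≤ ‖T m‖ ^ 2 := by linarith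
    rw [hNP, ← ENNReal.ofReal_mul (by positivity)]
    exact ENNReal.ofReal_le_ofReal h2

open Classical in
/-- squared norm in the Bergman space, `⊤` if the monomial is not holomorphic on `Ω` -/
def NP (Ω : Set (Fin n → ℂ)) (δ : Fin n → ℤ) : ℝ≥0∞ := if ok Ω δ then NN Ω δ else ⊤

lemma NN_le_NP (Ω : Set (Fin n → ℂ)) (δ : Fin n → ℤ) : NN Ω δ ≤ NP Ω δ := by
  unfold NP
  split_ifs
  · exact le_rfl
  · exact le_top

include hc hR hf hD hT hC in
lemma est_lim (hb : Bornology.IsBounded (Ω : Set (Fin n → ℂ))) (hne : (Ω : Set (Fin n → ℂ))ᶜ.Nonempty)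
    {γ : Fin n → ℤ} (m : bergman Ω) (hm : (m : Lp ℂ 2 (vol Ω)) =ᵐ[vol Ω] mono γ)
    (hγ : NN (Ω : Set (Fin n → ℂ)) γ ≠ ⊤) :
    ENNReal.ofReal (‖C‖ ^ 2) * NN (Ω : Set (Fin n → ℂ)) (γ + α) ≤ ENNReal.ofReal (‖T m‖ ^ 2) +
      ENNReal.ofReal (‖C‖ ^ 2) * (NN (Ω : Set (Fin n → ℂ)) γ ^ 2 / NP (Ω : Set (Fin n → ℂ)) (γ - α)) := by
  have hgood := fun k => Km_good hb hR hf k
  have hlimP := NN_tendsto Ω.isOpen hne (γ + α)
  have hlimR := NN_tendsto Ω.isOpen hne (γ - α)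
  have hCt : ENNReal.ofReal (‖C‖ ^ 2) ≠ ⊤ := ENNReal.ofReal_ne_top
  by_cases hok : ok (Ω : Set (Fin n → ℂ)) (γ - α)
  · have h1 : ∀ k, ENNReal.ofReal (‖C‖ ^ 2) * NN (Km (Ω : Set (Fin n → ℂ)) k) (γ + α) ≤
        ENNReal.ofReal (‖T m‖ ^ 2) + ENNReal.ofReal (‖C‖ ^ 2) *
          (NN (Ω : Set (Fin n → ℂ)) γ ^ 2 / NN (Km (Ω : Set (Fin n → ℂ)) k) (γ - α)) := by
      intro k
      refine ((est_K hc hR hf hD T hT hC m hm (hgood k)).1).trans ?_
      have h2 : NN (Km (Ω : Set (Fin n → ℂ)) k) γ ≤ NN (Ω : Set (Fin n → ℂ)) γ :=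
        lintegral_mono_set fun z hz => hz.2.2
      gcongr
    have h2 : NP (Ω : Set (Fin n → ℂ)) (γ - α) = NN (Ω : Set (Fin n → ℂ)) (γ - α) := by
      unfold NP; rw [if_pos hok]
    rw [h2]
    refine le_of_tendsto_of_tendsto (ENNReal.Tendsto.const_mul hlimP (Or.inr hCt))
      (tendsto_const_nhds.add (ENNReal.Tendsto.const_mul
        (ENNReal.Tendsto.const_div hlimR (Or.inr (ENNReal.pow_ne_top hγ))) (Or.inr hCt)))
      (Eventually.of_forall h1)
  · have h2 : NP (Ω : Set (Fin n → ℂ)) (γ - α) = ⊤ := by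
      unfold NP; rw [if_neg hok]
    rw [h2, ENNReal.div_top, mul_zero, add_zero]
    refine le_of_tendsto (ENNReal.Tendsto.const_mul hlimP (Or.inr hCt)) (Eventually.of_forall fun k => ?_)
    exact (est_K hc hR hf hD T hT hC m hm (hgood k)).2 hok

end lim

end

end Pool.Agent.U565.HK
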