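import Pool.Agent.U565.HK.Fin


set_option autoImplicit false

open MeasureTheory Topology Filter Set Metric Complex
open scoped ComplexConjugate Real ENNReal NNReal

namespace Pool.Agent.U565.HK

noncomputable section

/-- Normalised Haar measure on the unit circle. -/
local instance : MeasureSpace UnitAddCircle := ⟨AddCircle.haarAddCircle⟩

local instance : Measure.IsAddHaarMeasure (volume : Measure UnitAddCircle) :=
  inferInstanceAs (Measure.IsAddHaarMeasure AddCircle.haarAddCircle)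

local instance : IsProbabilityMeasure (volume : Measure UnitAddCircle) :=
  inferInstanceAs (IsProbabilityMeasure AddCircle.haarAddCircle)

variable {n : ℕ}

/-- `f` is constant. -/
theorem const_of_HS (hn : 2 ≤ n) {Ω : TopologicalSpace.Opens (Fin n → ℂ)}
    (hne : (Ω : Set (Fin n → ℂ)).Nonempty)
    (hb : Bornology.IsBounded (Ω : Set (Fin n → ℂ)))
    (hc : IsPreconnected (Ω : Set (Fin n → ℂ))) (hR : IsReinhardt (Ω : Set (Fin n → ℂ)))
    {f : (Fin n → ℂ) → ℂ} (hf : DifferentiableOn ℂ f Ω)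
    (hHS : IsHilbertSchmidtHankel Ω (fun z => conj (f z))) :
    ∃ c : ℂ, ∀ z ∈ Ω, f z = c := by
  obtain ⟨C, hC⟩ := laurent Ω.isOpen hc hR hf 0
  have hstar : ∀ z ∈ star' (Ω : Set (Fin n → ℂ)), f z = C := by
    intro z hz
    let F : C(UnitAddTorus (Fin n), ℂ) :=
      ⟨fun t => f (rot t z), cont_rot_left hf.continuousOn (fun w hw t => hR.rot_mem hw t) hz.1⟩
    have hcoef : ∀ α : Fin n → ℤ, UnitAddTorus.mFourierCoeff F α =
        ∫ t : UnitAddTorus (Fin n), f (rot t z) * UnitAddTorus.mFourier (-α) t := by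
      intro α
      unfold UnitAddTorus.mFourierCoeff
      refine integral_congr_ae (Eventually.of_forall fun t => ?_)
      change UnitAddTorus.mFourier (-α) t • f (rot t z) = _
      rw [smul_eq_mul, mul_comm]
    have hzero : ∀ α : Fin n → ℤ, α ≠ 0 → UnitAddTorus.mFourierCoeff F α = 0 := by
      intro α hα
      obtain ⟨C', hC'⟩ := laurent Ω.isOpen hc hR hf α
      rw [hcoef, hC' z hz, coef_zero hn hne hb hc hR hf hHS hα hC', zero_mul]
    have hsum : Summable (UnitAddTorus.mFourierCoeff F) :=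
      summable_of_ne_finset_zero (s := {0}) fun α hα => hzero α (by simpa using hα)
    have h1 := UnitAddTorus.hasSum_mFourier_series_apply_of_summable hsum 0
    have h2 := hasSum_single (f := fun α : Fin n → ℤ =>
      UnitAddTorus.mFourierCoeff F α • UnitAddTorus.mFourier α (0 : UnitAddTorus (Fin n))) 0
      (fun α hα => by rw [hzero α hα, zero_smul])
    have h3 := h1.unique h2
    have h4 : F 0 = f z := by
      change f (rot 0 z) = f z
      rw [rot_zero]
    rw [h4, hcoef, hC z hz, mono_zero, UnitAddTorus.mFourier_zero] at h3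
    rw [h3]
    simp
  refine ⟨C, fun z hz => ?_⟩
  by_contra hne'
  have hcont : ContinuousAt f z := (hf.continuousOn).continuousAt (Ω.isOpen.mem_nhds hz)
  have h1 := hcont.eventually_ne hne'
  obtain ⟨ε, hε, hsub⟩ := Metric.mem_nhds_iff.1 h1
  obtain ⟨w, hw, hwb, -⟩ := exists_near Ω.isOpen hz hε
  exact hsub hwb (hstar w hw)

theorem main_aux {n : ℕ} (hn : 2 ≤ n) (Ω : TopologicalSpace.Opens (Fin n → ℂ))
    (hc : IsConnected (Ω : Set (Fin n → ℂ)))
    (hb : Bornology.IsBounded (Ω : Set (Fin n → ℂ)))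
    (hR : IsReinhardt (Ω : Set (Fin n → ℂ)))
    (f : (Fin n → ℂ) → ℂ) (hf : DifferentiableOn ℂ f (Ω : Set (Fin n → ℂ)))
    (hHS : IsHilbertSchmidtHankel Ω (fun z => conj (f z))) :
    (∃ c : ℂ, ∀ z ∈ Ω, f z = c) ∧
      ∀ (g : bergman Ω) (h : InDom Ω (fun z => conj (f z)) g),
        hankel Ω (fun z => conj (f z)) g h = 0 := by
  obtain ⟨c, hcst⟩ := const_of_HS hn hc.nonempty hb hc.isPreconnected hR hf hHS
  refine ⟨⟨c, hcst⟩, fun g h => ?_⟩
  have h1 : h.toLp _ = (conj c) • (g : Lp ℂ 2 (vol Ω)) := by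
    apply Lp.ext
    filter_upwards [h.coeFn_toLp, Lp.coeFn_smul (conj c) (g : Lp ℂ 2 (vol Ω)),
      ae_restrict_mem Ω.isOpen.measurableSet] with z hz1 hz2 hz3
    rw [hz1, hz2, Pi.smul_apply, smul_eq_mul, hcst z hz3]
  have h2 : (h.toLp _ : Lp ℂ 2 (vol Ω)) ∈ bergman Ω := by
    rw [h1]; exact (bergman Ω).smul_mem _ g.2
  unfold hankel bergmanProj
  rw [Submodule.starProjection_eq_self_iff.2 h2, sub_self]

end

end Pool.Agent.U565.HK

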