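import Pool.Agent.U565.HK.Lim

set_option autoImplicit false

open MeasureTheory Topology Filter Set Metric Complex
open scoped ComplexConjugate Real ENNReal NNReal

namespace Pool.Agent.U565.HK

noncomputable section

/-- Normalised Haar measure on the unit circle. -/
local instance : MeasureSpace UnitAddCircle := ⟨AddCircle.haarAddCircle⟩

local instance : Measure.IsAddHaarMeasure (volume : Measure UnitAddCircle) :=
  inferInstanceAs (Measure.IsAddHaarMeasure AddCircle.haarAddCircle)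

local instance : IsProbabilityMeasure (volume : Measure UnitAddCircle) :=
  inferInstanceAs (IsProbabilityMeasure AddCircle.haarAddCircle)

variable {n : ℕ}

lemma NP_ne_top {Ω : Set (Fin n → ℂ)} {γ : Fin n → ℤ} (h : NP Ω γ ≠ ⊤) :
    ok Ω γ ∧ NN Ω γ ≠ ⊤ ∧ NP Ω γ = NN Ω γ := by
  unfold NP at *
  split_ifs at h ⊢ with h1
  · exact ⟨h1, h, rfl⟩
  · exact absurd rfl h

lemma memLp_mono {Ω : TopologicalSpace.Opens (Fin n → ℂ)} {γ : Fin n → ℤ}
    (h : NN (Ω : Set (Fin n → ℂ)) γ ≠ ⊤) : MemLp (mono γ) 2 (vol Ω) := by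
  refine ⟨(measurable_mono γ).aestronglyMeasurable, ?_⟩
  rw [eLpNorm_lt_top_iff_lintegral_rpow_enorm_lt_top (by norm_num) (by norm_num)]
  have h1 : ∫⁻ z, ‖mono γ z‖ₑ ^ (ENNReal.toReal 2) ∂(vol Ω) = NN (Ω : Set (Fin n → ℂ)) γ := by
    unfold NN
    refine lintegral_congr fun z => ?_
    rw [← ENNReal.rpow_natCast]; norm_num
  rw [h1]
  exact h.lt_top

open Classical in
/-- monomials as elements of the Bergman space -/
def mE (Ω : TopologicalSpace.Opens (Fin n → ℂ)) (γ : Fin n → ℤ) : bergman Ω :=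
  if h : NP (Ω : Set (Fin n → ℂ)) γ ≠ ⊤ then
    ⟨(memLp_mono (NP_ne_top h).2.1).toLp _, mono γ, mono_diffOn (NP_ne_top h).1,
      (memLp_mono (NP_ne_top h).2.1).coeFn_toLp⟩
  else 0

lemma mE_ae {Ω : TopologicalSpace.Opens (Fin n → ℂ)} {γ : Fin n → ℤ}
    (h : NP (Ω : Set (Fin n → ℂ)) γ ≠ ⊤) : (mE Ω γ : Lp ℂ 2 (vol Ω)) =ᵐ[vol Ω] mono γ := by
  unfold mE
  rw [dif_pos h]
  exact (memLp_mono (NP_ne_top h).2.1).coeFn_toLp

lemma mE_norm {Ω : TopologicalSpace.Opens (Fin n → ℂ)} {γ : Fin n → ℤ}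
    (h : NP (Ω : Set (Fin n → ℂ)) γ ≠ ⊤) :
    NP (Ω : Set (Fin n → ℂ)) γ = ENNReal.ofReal (‖mE Ω γ‖ ^ 2) := by
  have h1 := lint_sq (mE Ω γ : Lp ℂ 2 (vol Ω))
  rw [(NP_ne_top h).2.2]
  have h2 : ‖mE Ω γ‖ = ‖(mE Ω γ : Lp ℂ 2 (vol Ω))‖ := rfl
  rw [h2, ← h1]
  unfold NN
  refine lintegral_congr_ae ?_
  filter_upwards [mE_ae h] with z hz
  rw [hz]

lemma NN_pos {Ω : Set (Fin n → ℂ)} (hΩ : IsOpen Ω) (hne : Ω.Nonempty) (γ : Fin n → ℤ) :
    NN Ω γ ≠ 0 := by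
  intro h0
  unfold NN at h0
  rw [lintegral_eq_zero_iff ((measurable_mono _).enorm.pow_const 2)] at h0
  obtain ⟨p, hp⟩ := hne
  obtain ⟨w, hw, -, -⟩ := exists_near hΩ hp one_pos
  have h1 : 0 < volume (star' Ω) := (isOpen_star hΩ).measure_pos volume ⟨w, hw⟩
  have h2 : ∀ᵐ z ∂(volume.restrict (star' Ω)), False := by
    have h3 : ∀ᵐ z ∂(volume.restrict (star' Ω)), ‖mono γ z‖ₑ ^ 2 = 0 :=
      ae_mono (Measure.restrict_mono (fun z hz => hz.1) le_rfl) h0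
    filter_upwards [h3, ae_restrict_mem (isOpen_star hΩ).measurableSet] with z hz hzs
    have h4 : mono γ z = 0 := by simpa using hz
    exact mono_ne_zero γ hzs.2 h4
  rw [ae_iff] at h2
  simp only [not_false_eq_true, Set.ofPred_true, Measure.restrict_apply_univ] at h2
  exact h1.ne' h2

lemma NP_ne_zero {Ω : Set (Fin n → ℂ)} (hΩ : IsOpen Ω) (hne : Ω.Nonempty) (γ : Fin n → ℤ) :
    NP Ω γ ≠ 0 := by
  have h1 := NN_pos hΩ hne γ
  have h2 := NN_le_NP Ω γ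
  intro h
  rw [h] at h2
  exact h1 (le_zero_iff.1 h2)

/-- Integral of a nontrivial character. -/
lemma integral_mFourier {δ : Fin n → ℤ} (hδ : δ ≠ 0) :
    ∫ t : UnitAddTorus (Fin n), UnitAddTorus.mFourier δ t = 0 := by
  obtain ⟨j, hj⟩ : ∃ j, δ j ≠ 0 := Function.ne_iff.1 hδ
  set s : UnitAddTorus (Fin n) := Pi.single j ((1 / (2 * (δ j : ℝ)) : ℝ) : UnitAddCircle) with hs
  have hval : UnitAddTorus.mFourier δ s = -1 := by
    simp only [UnitAddTorus.mFourier, ContinuousMap.coe_mk]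
    rw [Finset.prod_eq_single j]
    · rw [hs, Pi.single_eq_same, fourier_coe_apply]
      have h1 : (2 * (π : ℂ) * I * (δ j : ℂ) * ((1 / (2 * (δ j : ℝ)) : ℝ) : ℂ) / ((1 : ℝ) : ℂ)) = π * I := by
        have : (δ j : ℂ) ≠ 0 := by exact_mod_cast hj
        push_cast
        field_simp
      rw [h1, Complex.exp_pi_mul_I]
    · intro i _ hi
      rw [hs, Pi.single_eq_of_ne hi]
      simp
    · intro h; exact absurd (Finset.mem_univ j) h
  have h1 : ∫ t : UnitAddTorus (Fin n), UnitAddTorus.mFourier δ (t + s)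
      = ∫ t : UnitAddTorus (Fin n), UnitAddTorus.mFourier δ t :=
    integral_add_right_eq_self (fun t => UnitAddTorus.mFourier δ t) s
  have h2 : ∀ t : UnitAddTorus (Fin n), UnitAddTorus.mFourier δ (t + s)
      = UnitAddTorus.mFourier δ s * UnitAddTorus.mFourier δ t := by
    intro t
    simp only [UnitAddTorus.mFourier, ContinuousMap.coe_mk]
    rw [← Finset.prod_mul_distrib]
    refine Finset.prod_congr rfl fun i _ => ?_
    rw [Pi.add_apply, fourier_apply, fourier_apply, fourier_apply, smul_add, AddCircle.toCircle_add]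
    simp [mul_comm]
  simp_rw [h2, hval] at h1
  rw [integral_const_mul] at h1
  have h3 : (2 : ℂ) * ∫ t : UnitAddTorus (Fin n), UnitAddTorus.mFourier δ t = 0 := by
    linear_combination (-1 : ℂ) * h1
  rcases mul_eq_zero.1 h3 with h | h
  · norm_num at h
  · exact h

/-- orthogonality of the monomials -/
lemma mE_orth {Ω : TopologicalSpace.Opens (Fin n → ℂ)} (hR : IsReinhardt (Ω : Set (Fin n → ℂ)))
    {γ γ' : Fin n → ℤ} (h : NP (Ω : Set (Fin n → ℂ)) γ ≠ ⊤) (h' : NP (Ω : Set (Fin n → ℂ)) γ' ≠ ⊤)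
    (hne : γ ≠ γ') : inner ℂ (mE Ω γ) (mE Ω γ') = 0 := by
  have h0 : inner ℂ (mE Ω γ) (mE Ω γ') = inner ℂ (mE Ω γ : Lp ℂ 2 (vol Ω)) (mE Ω γ' : Lp ℂ 2 (vol Ω)) := rfl
  rw [h0, L2.inner_def]
  have h1 : ∫ z, inner ℂ ((mE Ω γ : Lp ℂ 2 (vol Ω)) z) ((mE Ω γ' : Lp ℂ 2 (vol Ω)) z) ∂(vol Ω)
      = ∫ z in (Ω : Set (Fin n → ℂ)), conj (mono γ z) * mono γ' z := by
    refine integral_congr_ae ?_
    filter_upwards [mE_ae h, mE_ae h'] with z hz hz'
    rw [hz, hz', RCLike.inner_apply, mul_comm]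
  rw [h1]
  have hm := memLp_mono (NP_ne_top h).2.1
  have hm' := memLp_mono (NP_ne_top h').2.1
  have hint : IntegrableOn (fun z => conj (mono γ z) * mono γ' z) (Ω : Set (Fin n → ℂ)) := by
    have h2 : MemLp (fun z => conj (mono γ z)) 2 (vol Ω) := by
      refine hm.congr_norm (Complex.continuous_conj.comp_aestronglyMeasurable hm.1) ?_
      exact Eventually.of_forall fun z => by simp
    exact h2.integrable_mul hm'
  rw [integral_avg Ω.isOpen.measurableSet (fun t z => rot_mem_iff hR t z) hint]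
  have h3 : ∀ z, ∫ t : UnitAddTorus (Fin n), conj (mono γ (rot t z)) * mono γ' (rot t z) = 0 := by
    intro z
    have h4 : ∀ t : UnitAddTorus (Fin n), conj (mono γ (rot t z)) * mono γ' (rot t z)
        = (conj (mono γ z) * mono γ' z) * UnitAddTorus.mFourier (-γ + γ') t := by
      intro t
      rw [mono_rot, mono_rot, map_mul, UnitAddTorus.mFourier_add, UnitAddTorus.mFourier_neg]
      ring
    simp_rw [h4]
    rw [integral_const_mul, integral_mFourier, mul_zero]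
    intro h5
    apply hne
    have h6 : -γ + γ' = 0 := h5
    exact (neg_add_eq_zero.1 h6)
  simp_rw [h3]
  simp

/-- normalised monomials -/
def eE (Ω : TopologicalSpace.Opens (Fin n → ℂ)) (γ : Fin n → ℤ) : bergman Ω :=
  ((‖mE Ω γ‖⁻¹ : ℝ) : ℂ) • mE Ω γ

lemma mE_norm_pos {Ω : TopologicalSpace.Opens (Fin n → ℂ)} (hne : (Ω : Set (Fin n → ℂ)).Nonempty)
    {γ : Fin n → ℤ} (h : NP (Ω : Set (Fin n → ℂ)) γ ≠ ⊤) : 0 < ‖mE Ω γ‖ := by
  rw [norm_pos_iff]
  intro h0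
  have h1 := mE_norm h
  rw [h0, norm_zero] at h1
  simp at h1
  exact NP_ne_zero Ω.isOpen hne γ h1

lemma eE_orthonormal {Ω : TopologicalSpace.Opens (Fin n → ℂ)} (hR : IsReinhardt (Ω : Set (Fin n → ℂ)))
    (hne : (Ω : Set (Fin n → ℂ)).Nonempty) {ι : Type*} (φ : ι → (Fin n → ℤ))
    (hφ : Function.Injective φ) (h : ∀ i, NP (Ω : Set (Fin n → ℂ)) (φ i) ≠ ⊤) :
    Orthonormal ℂ (fun i => eE Ω (φ i)) := by
  constructor
  · intro i
    unfold eE
    rw [norm_smul, Complex.norm_real, norm_inv, norm_norm]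
    exact inv_mul_cancel₀ (mE_norm_pos hne (h i)).ne'
  · intro i j hij
    have h0 : inner ℂ (mE Ω (φ i) : Lp ℂ 2 (vol Ω)) (mE Ω (φ j) : Lp ℂ 2 (vol Ω)) = 0 :=
      mE_orth hR (h i) (h j) (fun h' => hij (hφ h'))
    change inner ℂ ((eE Ω (φ i) : bergman Ω) : Lp ℂ 2 (vol Ω)) ((eE Ω (φ j) : bergman Ω) : Lp ℂ 2 (vol Ω)) = 0
    unfold eE
    rw [Submodule.coe_smul, Submodule.coe_smul, inner_smul_left, inner_smul_right, h0, mul_zero,
      mul_zero]

lemma T_eE {Ω : TopologicalSpace.Opens (Fin n → ℂ)} (T : bergman Ω →L[ℂ] Lp ℂ 2 (vol Ω))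
    (γ : Fin n → ℤ) : ‖T (eE Ω γ)‖ ^ 2 = ‖T (mE Ω γ)‖ ^ 2 / ‖mE Ω γ‖ ^ 2 := by
  unfold eE
  rw [map_smul, norm_smul, Complex.norm_real, norm_inv, norm_norm, mul_pow, inv_pow]
  field_simp

end

end Pool.Agent.U565.HK
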